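import Pool.Agent.H1.RT.Exist

set_option autoImplicit false

/-!
Invariants of the groups in the list: the numbers of solutions of some equations.
-/

namespace Pool.Agent.H1.RT

/-- The number of `x < n` with `p x`. -/
def cnt (p : ℕ → Bool) : ℕ → ℕ
  | 0 => 0
  | n + 1 => (bif p n then 1 else 0) + cnt p n

/-- The sum of `f x` over `x < n`. -/
def csum (f : ℕ → ℕ) : ℕ → ℕ
  | 0 => 0
  | n + 1 => f n + csum f n

theorem cnt_eq (p : ℕ → Bool) (n : ℕ) : Nat.card {x : Fin n // p x = true} = cnt p n := by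
  rw [Nat.card_eq_fintype_card, Fintype.card_subtype, Finset.card_filter]
  induction n with
  | zero => rfl
  | succ n ih =>
    rw [Fin.sum_univ_castSucc]
    simp only [Fin.val_castSucc, Fin.val_last, cnt]
    rw [ih, add_comm]
    by_cases hp : p n = true
    · simp [hp]
    · have hp' : p n = false := by simpa using hp
      simp [hp']

theorem csum_eq (q : ℕ → ℕ → Bool) (n m : ℕ) :
    Nat.card {x : Fin n × Fin m // q x.1 x.2 = true} = csum (fun x => cnt (q x) m) n := by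
  rw [Nat.card_eq_fintype_card, Fintype.card_subtype, Finset.card_filter, Fintype.sum_prod_type]
  have h : ∀ x : Fin n, (∑ y : Fin m, if q x y = true then 1 else 0) = cnt (q x) m := by
    intro x
    rw [← cnt_eq, Nat.card_eq_fintype_card, Fintype.card_subtype, Finset.card_filter]
  simp only [h]
  clear h
  induction n with
  | zero => rfl
  | succ n ih =>
    rw [Fin.sum_univ_castSucc]
    simp only [Fin.val_castSucc, Fin.val_last, csum]
    rw [ih, add_comm]

/-- The invariants. -/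
noncomputable def invs (G : Type) [Group G] : ℕ × ℕ × ℕ × ℕ :=
  (Nat.card G, Nat.card {g : G // g * g = 1}, Nat.card {g : G // g * g * (g * g) = 1},
    Nat.card {p : G × G // p.1 * p.1 = 1 ∧ p.2 * p.2 = 1 ∧ p.1 * p.2 = p.2 * p.1})

theorem invs_congr {G H : Type} [Group G] [Group H] (e : G ≃* H) : invs G = invs H := by
  unfold invs
  refine Prod.ext (Nat.card_congr e.toEquiv) (Prod.ext ?_ (Prod.ext ?_ ?_))
  · exact Nat.card_congr (e.toEquiv.subtypeEquiv fun g => by
      change g * g = 1 ↔ e g * e g = 1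
      rw [← map_mul, map_eq_one_iff e e.injective])
  · exact Nat.card_congr (e.toEquiv.subtypeEquiv fun g => by
      change g * g * (g * g) = 1 ↔ e g * e g * (e g * e g) = 1
      rw [← map_mul, ← map_mul, map_eq_one_iff e e.injective])
  · exact Nat.card_congr ((e.toEquiv.prodCongr e.toEquiv).subtypeEquiv fun p => by
      change (p.1 * p.1 = 1 ∧ p.2 * p.2 = 1 ∧ p.1 * p.2 = p.2 * p.1) ↔
        (e p.1 * e p.1 = 1 ∧ e p.2 * e p.2 = 1 ∧ e p.1 * e p.2 = e p.2 * e p.1)
      rw [← map_mul, ← map_mul, ← map_mul, ← map_mul, map_eq_one_iff e e.injective,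
        map_eq_one_iff e e.injective, e.injective.eq_iff])

/-- The invariants, from the table. -/
def tinvs (N : ℕ) (R : ℕ → ℕ → ℕ) : ℕ × ℕ × ℕ × ℕ :=
  (2 ^ N, cnt (fun x => Nat.beq (sq R N x) 0) (2 ^ N),
    cnt (fun x => Nat.beq (sq R N (sq R N x)) 0) (2 ^ N),
    csum (fun x => cnt (fun y => Nat.beq (sq R N x) 0 && (Nat.beq (sq R N y) 0 &&
      Nat.beq (fm R y N x) (fm R x N y))) (2 ^ N)) (2 ^ N))

theorem invs_eq {G : Type} [Group G] {N : ℕ} {R S : ℕ → ℕ → ℕ} (hR : Good N R S)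
    (h : HasTab G N R) : invs G = tinvs N R := by
  obtain ⟨A, a1, a2, a3⟩ := h
  have hZ : Tail (fun _ : ℕ => (1 : G)) := ⟨rfl, fun _ _ => by simp, fun _ _ => by simp⟩
  have hg := table_sound (A := A) (S := S) (Z := fun _ => 1) hZ hR
    fun i j hij hj => by rw [a1 i j hij hj, mul_one]
  have hmul : ∀ x < 2 ^ N, ∀ v, fm R v N x < 2 ^ N ∧
      ev A N x * ev A N v = ev A N (fm R v N x) := by
    intro x hx v
    have := fold_sound (S := S) hZ hR.bd hg v x hx N le_rfl
    simpa using this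
  have hbij : Function.Bijective fun x : Fin (2 ^ N) => ev A N x := by
    constructor
    · intro x x' e
      exact Fin.ext (a3 x x.2 x' x'.2 e)
    · intro g
      obtain ⟨x, hx, e⟩ := a2 g
      exact ⟨⟨x, hx⟩, e⟩
  let E := Equiv.ofBijective _ hbij
  have hE : ∀ x : Fin (2 ^ N), E x = ev A N x := fun _ => rfl
  have h0 : ∀ x < 2 ^ N, (ev A N x = 1 ↔ x = 0) := by
    intro x hx
    constructor
    · intro e
      exact a3 x hx 0 (by positivity) (by rw [e, ev_zero])
    · rintro rfl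
      exact ev_zero A N
  have hsq : ∀ x < 2 ^ N, (ev A N x * ev A N x = 1 ↔ Nat.beq (sq R N x) 0 = true) := by
    intro x hx
    obtain ⟨b, c⟩ := hmul x hx x
    rw [c, h0 _ b, beq_iff]
    rfl
  unfold invs tinvs
  refine Prod.ext ?_ (Prod.ext ?_ (Prod.ext ?_ ?_))
  · change Nat.card G = 2 ^ N
    rw [← Nat.card_congr E]
    simp
  · change Nat.card {g : G // g * g = 1} = cnt (fun x => Nat.beq (sq R N x) 0) (2 ^ N)
    rw [← cnt_eq]
    exact (Nat.card_congr (E.subtypeEquiv fun x => by rw [hE]; exact (hsq x x.2).symm)).symm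
  · change Nat.card {g : G // g * g * (g * g) = 1} =
      cnt (fun x => Nat.beq (sq R N (sq R N x)) 0) (2 ^ N)
    rw [← cnt_eq]
    refine (Nat.card_congr (E.subtypeEquiv fun x => ?_)).symm
    obtain ⟨b, c⟩ := hmul x x.2 x
    rw [hE, c, hsq _ b]
    rfl
  · change Nat.card {p : G × G // p.1 * p.1 = 1 ∧ p.2 * p.2 = 1 ∧ p.1 * p.2 = p.2 * p.1} =
      csum (fun x => cnt (fun y => Nat.beq (sq R N x) 0 && (Nat.beq (sq R N y) 0 &&
        Nat.beq (fm R y N x) (fm R x N y))) (2 ^ N)) (2 ^ N)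
    rw [← csum_eq]
    refine (Nat.card_congr ((E.prodCongr E).subtypeEquiv fun p => ?_)).symm
    obtain ⟨x, y⟩ := p
    change _ ↔ (E x * E x = 1 ∧ E y * E y = 1 ∧ E x * E y = E y * E x)
    obtain ⟨b, c⟩ := hmul x x.2 y
    obtain ⟨d, e⟩ := hmul y y.2 x
    rw [hE, hE, hsq x x.2, hsq y y.2, c, e, Bool.and_eq_true, Bool.and_eq_true, beq_iff (fm R _ N _)]
    exact and_congr Iff.rfl (and_congr Iff.rfl
      ⟨fun h => by rw [h], fun h => a3 _ b _ d h⟩)

/-- The values of the invariants. -/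
def vals : List (ℕ × ℕ × ℕ × ℕ) := [
  (1, 1, 1, 1), (2, 2, 2, 4), (4, 4, 4, 16), (8, 8, 8, 64), (8, 6, 8, 28), (8, 2, 8, 4),
  (16, 12, 16, 112), (16, 4, 16, 16), (32, 20, 32, 304), (32, 20, 32, 208), (32, 4, 32, 16),
  (32, 16, 24, 136), (32, 8, 24, 40), (64, 28, 64, 448), (64, 28, 48, 352), (64, 12, 48, 64),
  (64, 28, 48, 304), (64, 12, 48, 112), (64, 4, 48, 16), (128, 44, 112, 928),
  (128, 36, 112, 640), (128, 36, 112, 544), (128, 20, 112, 256), (128, 36, 80, 544),
  (128, 20, 80, 160), (128, 12, 80, 64), (128, 44, 80, 688), (128, 12, 80, 112),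
  (256, 60, 144, 1072), (256, 28, 144, 304)]

/-- Check of the invariants. -/
def invb (a : Nd) (v : ℕ × ℕ × ℕ × ℕ) : Bool :=
  Nat.beq (2 ^ a.N) v.1 && (Nat.beq (tinvs a.N a.R).2.1 v.2.1 &&
    (Nat.beq (tinvs a.N a.R).2.2.1 v.2.2.1 && Nat.beq (tinvs a.N a.R).2.2.2 v.2.2.2))

theorem tinvs_of_invb {a : Nd} {v : ℕ × ℕ × ℕ × ℕ} (h : invb a v = true) :
    tinvs a.N a.R = v := by
  unfold invb at h
  rw [Bool.and_eq_true, Bool.and_eq_true, Bool.and_eq_true, beq_iff, beq_iff, beq_iff,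
    beq_iff] at h
  exact Prod.ext h.1 (Prod.ext h.2.1 (Prod.ext h.2.2.1 h.2.2.2))

theorem vals_inj : ∀ c < 30, ∀ d < 30, vals.getD c (0, 0, 0, 0) = vals.getD d (0, 0, 0, 0) →
    c = d := by
  decide +kernel

end Pool.Agent.H1.RT
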