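import Pool.Agent.H1.RT.Data
import Pool.Agent.H1.RT.Inv

set_option autoImplicit false

/-!
Checks of the data, by evaluation in the kernel: the groups exist, and their invariants.
-/

namespace Pool.Agent.H1.RT

theorem ex0 : exb (nd 0) = true := by decide +kernel

theorem in0 : invb (nd 0) (vals.getD 0 (0, 0, 0, 0)) = true := by decide +kernel

theorem ex1 : exb (nd 1) = true := by decide +kernel

theorem in1 : invb (nd 1) (vals.getD 1 (0, 0, 0, 0)) = true := by decide +kernel

theorem ex2 : exb (nd 2) = true := by decide +kernel

theorem in2 : invb (nd 2) (vals.getD 2 (0, 0, 0, 0)) = true := by decide +kernel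

theorem ex3 : exb (nd 3) = true := by decide +kernel

theorem in3 : invb (nd 3) (vals.getD 3 (0, 0, 0, 0)) = true := by decide +kernel

theorem ex4 : exb (nd 4) = true := by decide +kernel

theorem in4 : invb (nd 4) (vals.getD 4 (0, 0, 0, 0)) = true := by decide +kernel

theorem ex5 : exb (nd 5) = true := by decide +kernel

theorem in5 : invb (nd 5) (vals.getD 5 (0, 0, 0, 0)) = true := by decide +kernel

theorem ex6 : exb (nd 6) = true := by decide +kernel

theorem in6 : invb (nd 6) (vals.getD 6 (0, 0, 0, 0)) = true := by decide +kernel

theorem ex7 : exb (nd 7) = true := by decide +kernel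

theorem in7 : invb (nd 7) (vals.getD 7 (0, 0, 0, 0)) = true := by decide +kernel

theorem ex8 : exb (nd 8) = true := by decide +kernel

theorem in8 : invb (nd 8) (vals.getD 8 (0, 0, 0, 0)) = true := by decide +kernel

theorem ex9 : exb (nd 9) = true := by decide +kernel

theorem in9 : invb (nd 9) (vals.getD 9 (0, 0, 0, 0)) = true := by decide +kernel

theorem ex10 : exb (nd 10) = true := by decide +kernel

theorem in10 : invb (nd 10) (vals.getD 10 (0, 0, 0, 0)) = true := by decide +kernel

theorem ex11 : exb (nd 11) = true := by decide +kernel

theorem in11 : invb (nd 11) (vals.getD 11 (0, 0, 0, 0)) = true := by decide +kernel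

theorem ex12 : exb (nd 12) = true := by decide +kernel

theorem in12 : invb (nd 12) (vals.getD 12 (0, 0, 0, 0)) = true := by decide +kernel

theorem ex13 : exb (nd 13) = true := by decide +kernel

theorem in13 : invb (nd 13) (vals.getD 13 (0, 0, 0, 0)) = true := by decide +kernel

end Pool.Agent.H1.RT
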