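import Pool.Agent.H1.RT.Data
import Pool.Agent.H1.RT.Inv

set_option autoImplicit false

/-!
Checks of the data, by evaluation in the kernel: the groups exist, and their invariants.
-/

namespace Pool.Agent.H1.RT

theorem ex14 : exb (nd 14) = true := by decide +kernel

theorem in14 : invb (nd 14) (vals.getD 14 (0, 0, 0, 0)) = true := by decide +kernel

theorem ex15 : exb (nd 15) = true := by decide +kernel

theorem in15 : invb (nd 15) (vals.getD 15 (0, 0, 0, 0)) = true := by decide +kernel

theorem ex16 : exb (nd 16) = true := by decide +kernel

theorem in16 : invb (nd 16) (vals.getD 16 (0, 0, 0, 0)) = true := by decide +kernel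

theorem ex17 : exb (nd 17) = true := by decide +kernel

theorem in17 : invb (nd 17) (vals.getD 17 (0, 0, 0, 0)) = true := by decide +kernel

theorem ex18 : exb (nd 18) = true := by decide +kernel

theorem in18 : invb (nd 18) (vals.getD 18 (0, 0, 0, 0)) = true := by decide +kernel

theorem ex19 : exb (nd 19) = true := by decide +kernel

theorem in19 : invb (nd 19) (vals.getD 19 (0, 0, 0, 0)) = true := by decide +kernel

theorem ex20 : exb (nd 20) = true := by decide +kernel

theorem in20 : invb (nd 20) (vals.getD 20 (0, 0, 0, 0)) = true := by decide +kernel

theorem ex21 : exb (nd 21) = true := by decide +kernel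

theorem in21 : invb (nd 21) (vals.getD 21 (0, 0, 0, 0)) = true := by decide +kernel

end Pool.Agent.H1.RT
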