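import Pool.Agent.H1.RT.Data
import Pool.Agent.H1.RT.Inv

set_option autoImplicit false

/-!
Checks of the data, by evaluation in the kernel: the groups exist, and their invariants.
-/

namespace Pool.Agent.H1.RT

theorem ex22 : exb (nd 22) = true := by decide +kernel

theorem in22 : invb (nd 22) (vals.getD 22 (0, 0, 0, 0)) = true := by decide +kernel

theorem ex23 : exb (nd 23) = true := by decide +kernel

theorem in23 : invb (nd 23) (vals.getD 23 (0, 0, 0, 0)) = true := by decide +kernel

theorem ex24 : exb (nd 24) = true := by decide +kernel

theorem in24 : invb (nd 24) (vals.getD 24 (0, 0, 0, 0)) = true := by decide +kernel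

theorem ex25 : exb (nd 25) = true := by decide +kernel

theorem in25 : invb (nd 25) (vals.getD 25 (0, 0, 0, 0)) = true := by decide +kernel

theorem ex26 : exb (nd 26) = true := by decide +kernel

theorem in26 : invb (nd 26) (vals.getD 26 (0, 0, 0, 0)) = true := by decide +kernel

theorem ex27 : exb (nd 27) = true := by decide +kernel

theorem in27 : invb (nd 27) (vals.getD 27 (0, 0, 0, 0)) = true := by decide +kernel

end Pool.Agent.H1.RT
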