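import Pool.Agent.H1.RT.Data
import Pool.Agent.H1.RT.Inv

set_option autoImplicit false

/-!
Checks of the data, by evaluation in the kernel: the groups exist, and their invariants.
-/

namespace Pool.Agent.H1.RT

theorem ex28 : exb (nd 28) = true := by decide +kernel

theorem in28 : invb (nd 28) (vals.getD 28 (0, 0, 0, 0)) = true := by decide +kernel

theorem ex29 : exb (nd 29) = true := by decide +kernel

theorem in29 : invb (nd 29) (vals.getD 29 (0, 0, 0, 0)) = true := by decide +kernel

end Pool.Agent.H1.RT
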