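import Pool.Agent.H1.RT.Fin
import Pool.Agent.H1.RT.Che0
import Pool.Agent.H1.RT.Che1
import Pool.Agent.H1.RT.Che2
import Pool.Agent.H1.RT.Che3

set_option autoImplicit false

/-!
The groups in the list exist, are rational, and are pairwise not isomorphic.
-/

namespace Pool.Agent.H1.RT

theorem ex_all (c : ℕ) (hc : c < 30) : exb (nd c) = true := by
  interval_cases c
  exacts [ex0, ex1, ex2, ex3, ex4, ex5, ex6, ex7, ex8, ex9, ex10, ex11, ex12, ex13, ex14, ex15,
    ex16, ex17, ex18, ex19, ex20, ex21, ex22, ex23, ex24, ex25, ex26, ex27, ex28, ex29]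

theorem in_all (c : ℕ) (hc : c < 30) : invb (nd c) (vals.getD c (0, 0, 0, 0)) = true := by
  interval_cases c
  exacts [in0, in1, in2, in3, in4, in5, in6, in7, in8, in9, in10, in11, in12, in13, in14, in15,
    in16, in17, in18, in19, in20, in21, in22, in23, in24, in25, in26, in27, in28, in29]

theorem rational_of_rat2 {G : Type} [Group G] (h : Rat2 G) (he : ∀ g : G, g ^ 16 = 1) :
    ∀ x y : G, Subgroup.zpowers x = Subgroup.zpowers y → IsConj x y := by
  have hc1 : ∀ g : G, IsConj g g⁻¹ := by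
    intro g
    obtain ⟨c, hc⟩ := (h g).1
    rw [isConj_iff]
    refine ⟨c, ?_⟩
    have h1 : c * g = g⁻¹ * c := by
      rw [eq_inv_mul_iff_mul_eq, ← mul_assoc, hc]
    rw [h1]
    group
  have hc3 : ∀ g : G, IsConj g (g ^ 3) := by
    intro g
    obtain ⟨c, hc⟩ := (h g).2
    rw [isConj_iff]
    refine ⟨c⁻¹, ?_⟩
    have h1 : c⁻¹ * g * c = g * g * g := by
      rw [mul_assoc, hc]
      group
    rw [inv_inv, h1, pow_succ, pow_two]
  intro x y hxy
  have hinv : ∀ k ≤ 16, (x ^ k)⁻¹ = x ^ (16 - k) := by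
    intro k hk
    rw [inv_eq_iff_mul_eq_one, ← pow_add, Nat.add_sub_cancel' hk, he]
  have hy : y ∈ Subgroup.zpowers x := hxy ▸ Subgroup.mem_zpowers y
  have hx : x ∈ Subgroup.zpowers y := hxy ▸ Subgroup.mem_zpowers x
  have hred : ∀ g w : G, w ∈ Subgroup.zpowers g → ∃ r < 16, w = g ^ r := by
    intro g w hw
    obtain ⟨k, rfl⟩ := Subgroup.mem_zpowers_iff.1 hw
    refine ⟨(k % 16).toNat, ?_, ?_⟩
    · have h1 := Int.emod_lt_of_pos k (by norm_num : (0 : ℤ) < 16)
      have h2 := Int.emod_nonneg k (by norm_num : (16 : ℤ) ≠ 0)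
      omega
    · have h2 := Int.emod_nonneg k (by norm_num : (16 : ℤ) ≠ 0)
      rw [← zpow_natCast g, Int.toNat_of_nonneg h2]
      conv_lhs => rw [← Int.emod_add_mul_ediv k 16]
      rw [zpow_add, zpow_mul]
      have h3 : g ^ (16 : ℤ) = 1 := by exact_mod_cast he g
      rw [h3, one_zpow, mul_one]
  obtain ⟨r, hr, rfl⟩ := hred x y hy
  rcases Nat.even_or_odd r with hev | hodd
  · obtain ⟨s, -, hs⟩ := hred _ x hx
    obtain ⟨t, ht⟩ := hev
    have h2 : x ^ 8 = 1 := by
      have h3 : x ^ 8 = (x ^ 16) ^ (t * s) := by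
        conv_lhs => rw [hs]
        rw [← pow_mul, ← pow_mul, ← pow_mul, ht]
        congr 1
        ring
      rw [h3, he, one_pow]
    have step : ∀ n, x ^ (2 * n) = 1 → x ^ n = 1 := by
      intro n hn
      have h3 : x ^ n = (x ^ (2 * n)) ^ (t * s) := by
        conv_lhs => rw [hs]
        rw [← pow_mul, ← pow_mul, ← pow_mul, ht]
        congr 1
        ring
      rw [h3, hn, one_pow]
    have h1 : x ^ 1 = 1 := step 1 (step 2 (step 4 h2))
    rw [pow_one] at h1
    subst h1
    rw [one_pow]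
  · have c3 := hc3 x
    have c9 : IsConj x (x ^ 9) := c3.trans (by
      have h1 := hc3 (x ^ 3)
      rwa [← pow_mul] at h1)
    have c27 : IsConj x (x ^ 11) := c9.trans (by
      have h1 := hc3 (x ^ 9)
      rw [← pow_mul] at h1
      have h2 : x ^ (9 * 3) = x ^ 11 := by
        rw [show 9 * 3 = 16 + 11 by norm_num, pow_add, he, one_mul]
      rwa [h2] at h1)
    have c15 : IsConj x (x ^ 15) := by
      have h1 := hc1 (x ^ 1)
      rw [hinv 1 (by norm_num), pow_one] at h1
      exact h1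
    have c13 : IsConj x (x ^ 13) := c3.trans (by
      have h1 := hc1 (x ^ 3)
      rwa [hinv 3 (by norm_num)] at h1)
    have c7 : IsConj x (x ^ 7) := c9.trans (by
      have h1 := hc1 (x ^ 9)
      rwa [hinv 9 (by norm_num)] at h1)
    have c5 : IsConj x (x ^ 5) := c27.trans (by
      have h1 := hc1 (x ^ 11)
      rwa [hinv 11 (by norm_num)] at h1)
    obtain ⟨m, rfl⟩ := hodd
    have hm : m < 8 := by omega
    interval_cases m
    · rw [mul_zero, zero_add, pow_one]
    · exact c3
    · exact c5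
    · exact c7
    · exact c9
    · exact c27
    · exact c13
    · exact c15

end Pool.Agent.H1.RT
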