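import Mathlib

set_option autoImplicit false

/-!
Collection in finite 2-groups with a power-commutator presentation, given by a table of right
multiplication by the generators, also for central extensions by a group of order two.
-/

namespace Pool.Agent.H1.RT

/-- A bit of a natural number. -/
def bt (x i : ℕ) : Bool := Nat.beq ((x >>> i) % 2) 1

theorem bt_eq (x i : ℕ) : bt x i = x.testBit i := by
  unfold bt
  rw [Nat.shiftRight_eq_div_pow, Nat.testBit_eq_decide_div_mod_eq]
  rw [Bool.eq_iff_iff]
  simp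

section Ev

variable {G : Type*} [Group G]

/-- The product of the `A i` for the bits `i < n` of `x`. -/
def ev (A : ℕ → G) : ℕ → ℕ → G
  | 0, _ => 1
  | n + 1, x => ev A n x * (if x.testBit n then A n else 1)

theorem ev_bits (A : ℕ → G) : ∀ (n x y : ℕ), (∀ l < n, x.testBit l = y.testBit l) →
    ev A n x = ev A n y
  | 0, _, _, _ => rfl
  | n + 1, x, y, h => by
    simp only [ev]
    rw [ev_bits A n x y fun l hl => h l (Nat.lt_succ_of_lt hl), h n (Nat.lt_succ_self n)]

theorem ev_congr {A B : ℕ → G} : ∀ (n x : ℕ), (∀ l < n, A l = B l) → ev A n x = ev B n x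
  | 0, _, _ => rfl
  | n + 1, x, h => by
    simp only [ev]
    rw [ev_congr n x fun l hl => h l (Nat.lt_succ_of_lt hl), h n (Nat.lt_succ_self n)]

theorem ev_of_lt (A : ℕ → G) (k x : ℕ) (hx : x < 2 ^ k) : ∀ n, k ≤ n → ev A n x = ev A k x := by
  intro n hn
  induction n, hn using Nat.le_induction with
  | base => rfl
  | succ n hn ih =>
    have h1 : x.testBit n = false :=
      Nat.testBit_lt_two_pow (lt_of_lt_of_le hx (Nat.pow_le_pow_right (by norm_num) hn))
    simp only [ev, h1]
    simpa using ih

theorem ev_zero (A : ℕ → G) (n : ℕ) : ev A n 0 = 1 := by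
  rw [ev_of_lt A 0 0 (by norm_num) n (Nat.zero_le n)]
  rfl

theorem ev_add (A : ℕ → G) (n j x : ℕ) (hx : x < 2 ^ j) (hj : j < n) :
    ev A n (x + 2 ^ j) = ev A n x * A j := by
  have h2 : x + 2 ^ j < 2 ^ (j + 1) := by rw [pow_succ]; omega
  rw [ev_of_lt A (j + 1) _ h2 n hj, ev_of_lt A j x hx n hj.le]
  simp only [ev]
  have h3 : (x + 2 ^ j).testBit j = true := by
    rw [Nat.add_comm, Nat.testBit_two_pow_add_eq, Nat.testBit_lt_two_pow hx]
    rfl
  rw [h3, if_pos rfl]
  congr 1
  apply ev_bits
  intro l hl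
  rw [Nat.add_comm, Nat.testBit_two_pow_add_gt hl]

theorem ev_pow (A : ℕ → G) (n j : ℕ) (hj : j < n) : ev A n (2 ^ j) = A j := by
  have := ev_add A n j 0 (by positivity) hj
  rw [Nat.zero_add, ev_zero, one_mul] at this
  exact this

theorem map_ev {H : Type*} [Group H] (f : G →* H) (A : ℕ → G) :
    ∀ n x : ℕ, f (ev A n x) = ev (fun l => f (A l)) n x
  | 0, _ => map_one f
  | n + 1, x => by
    simp only [ev, map_mul, map_ev f A n x]
    split_ifs
    · rfl
    · rw [map_one]

end Ev

/-! ### Folding -/

/-- Right multiplication of `x` by the word with bits `v`. -/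
def fm (R : ℕ → ℕ → ℕ) (v : ℕ) : ℕ → ℕ → ℕ
  | 0, x => x
  | n + 1, x => bif bt v n then R n (fm R v n x) else fm R v n x

/-- The tail. -/
def ft (R S : ℕ → ℕ → ℕ) (v : ℕ) : ℕ → ℕ → ℕ
  | 0, _ => 0
  | n + 1, x => bif bt v n then S n (fm R v n x) ^^^ ft R S v n x else ft R S v n x

/-- Evaluation of tails. -/
structure Tail {G : Type*} [Group G] (Z : ℕ → G) : Prop where
  zero : Z 0 = 1
  xor : ∀ a b, Z (a ^^^ b) = Z a * Z b
  comm : ∀ a g, Z a * g = g * Z a

section Fold

variable {G : Type*} [Group G]

theorem fold_sound {A : ℕ → G} {N : ℕ} {R S : ℕ → ℕ → ℕ} {Z : ℕ → G} (hZ : Tail Z)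
    (hb : ∀ i < N, ∀ x < 2 ^ N, R i x < 2 ^ N)
    (hg : ∀ i < N, ∀ x < 2 ^ N, ev A N x * A i = ev A N (R i x) * Z (S i x)) (v x : ℕ)
    (hx : x < 2 ^ N) : ∀ n ≤ N, fm R v n x < 2 ^ N ∧
      ev A N x * ev A n v = ev A N (fm R v n x) * Z (ft R S v n x) := by
  intro n
  induction n with
  | zero => intro _; exact ⟨hx, by simp [ev, fm, ft, hZ.zero]⟩
  | succ n ih =>
    intro hn
    obtain ⟨h1, h2⟩ := ih (Nat.le_of_succ_le hn)
    simp only [ev, fm, ft, bt_eq]
    cases hv : v.testBit n
    · simpa using ⟨h1, h2⟩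
    · simp only [cond_true, if_true]
      refine ⟨hb n hn _ h1, ?_⟩
      rw [← mul_assoc, h2, mul_assoc, hZ.comm, ← mul_assoc, hg n hn _ h1, hZ.xor, mul_assoc]

/-- The conditions on a table. -/
structure Good (N : ℕ) (R S : ℕ → ℕ → ℕ) : Prop where
  bd : ∀ i < N, ∀ x < 2 ^ N, R i x < 2 ^ N
  lo : ∀ i < N, ∀ x < 2 ^ i, R i x = x + 2 ^ i ∧ S i x = 0
  hi : ∀ i < N, ∀ x, 2 ^ i ≤ x → x < 2 ^ N →
    R i (2 ^ Nat.log2 x) % 2 ^ i = 0 ∧
    fm R (R i (2 ^ Nat.log2 x)) N (x - 2 ^ Nat.log2 x) = R i x ∧
    S i (2 ^ Nat.log2 x) ^^^ ft R S (R i (2 ^ Nat.log2 x)) N (x - 2 ^ Nat.log2 x) = S i x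

theorem table_sound {A : ℕ → G} {N : ℕ} {R S : ℕ → ℕ → ℕ} {Z : ℕ → G} (hZ : Tail Z)
    (h : Good N R S)
    (hrel : ∀ i j, i ≤ j → j < N → A j * A i = ev A N (R i (2 ^ j)) * Z (S i (2 ^ j))) :
    ∀ i < N, ∀ x < 2 ^ N, ev A N x * A i = ev A N (R i x) * Z (S i x) := by
  have key : ∀ k i, N - i = k → i < N → ∀ x < 2 ^ N,
      ev A N x * A i = ev A N (R i x) * Z (S i x) := by
    intro k
    induction k using Nat.strong_induction_on with
    | _ k ihk =>
      intro i hik hi x
      induction x using Nat.strong_induction_on with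
      | _ x ihx =>
        intro hx
        rcases lt_or_ge x (2 ^ i) with hlt | hge
        · obtain ⟨e1, e2⟩ := h.lo i hi x hlt
          rw [e1, e2, hZ.zero, mul_one, ev_add A N i x hlt hi]
        · obtain ⟨c1, c2, c3⟩ := h.hi i hi x hge hx
          set j := Nat.log2 x with hj
          have hx0 : x ≠ 0 := by
            have : 0 < 2 ^ i := by positivity
            omega
          have hj1 : 2 ^ j ≤ x := Nat.log2_self_le hx0
          have hj2 : x < 2 ^ (j + 1) := Nat.lt_log2_self
          have hij : i ≤ j := by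
            by_contra hc
            have : 2 ^ (j + 1) ≤ 2 ^ i := Nat.pow_le_pow_right (by norm_num) (by omega)
            omega
          have hjN : j < N := by
            by_contra hc
            have : 2 ^ N ≤ 2 ^ j := Nat.pow_le_pow_right (by norm_num) (by omega)
            omega
          set v := R i (2 ^ j) with hv
          set x' := x - 2 ^ j with hx'
          have hx'lt : x' < 2 ^ j := by rw [pow_succ] at hj2; omega
          have hpj : 0 < 2 ^ j := by positivity
          have hx'x : x' < x := by omega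
          have hx'N : x' < 2 ^ N := by omega
          have hlow : ∀ b < i, v.testBit b = false := by
            intro b hb
            have h1 : (v % 2 ^ i).testBit b = v.testBit b := by
              rw [Nat.testBit_mod_two_pow]; simp [hb]
            rw [← h1, c1, Nat.zero_testBit]
          have hfold : ∀ n ≤ N, fm R v n x' < 2 ^ N ∧ (n ≤ i → fm R v n x' = x') ∧
              ev A N x' * ev A n v = ev A N (fm R v n x') * Z (ft R S v n x') := by
            intro n
            induction n with
            | zero => intro _; exact ⟨hx'N, fun _ => rfl, by simp [ev, fm, ft, hZ.zero]⟩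
            | succ n ih =>
              intro hn
              obtain ⟨h1, h2, h3⟩ := ih (Nat.le_of_succ_le hn)
              simp only [ev, fm, ft, bt_eq]
              cases hvb : v.testBit n
              · refine ⟨by simpa using h1, fun hni => by simpa using h2 (by omega), by simpa using h3⟩
              · simp only [cond_true, if_true]
                have hni : i ≤ n := by
                  by_contra hc
                  rw [hlow n (by omega)] at hvb
                  exact absurd hvb (by simp)
                have hstep : ev A N (fm R v n x') * A n =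
                    ev A N (R n (fm R v n x')) * Z (S n (fm R v n x')) := by
                  rcases Nat.eq_or_lt_of_le hni with heq | hlt
                  · subst heq
                    rw [h2 le_rfl]
                    exact ihx x' hx'x hx'N
                  · exact ihk (N - n) (by omega) n rfl hn _ h1
                refine ⟨h.bd n hn _ h1, fun hc => absurd hc (by omega), ?_⟩
                rw [← mul_assoc, h3, mul_assoc, hZ.comm, ← mul_assoc, hstep, hZ.xor, mul_assoc]
          obtain ⟨_, _, hf⟩ := hfold N le_rfl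
          have hxe : x = x' + 2 ^ j := by omega
          calc ev A N x * A i = ev A N x' * (A j * A i) := by
                rw [hxe, ev_add A N j x' hx'lt hjN, mul_assoc]
            _ = ev A N x' * ev A N v * Z (S i (2 ^ j)) := by
                rw [hrel i j hij hjN, mul_assoc]
            _ = ev A N (R i x) * Z (S i x) := by
                rw [hf, c2, mul_assoc, ← hZ.comm, ← hZ.xor, c3]
  exact fun i hi x hx => key (N - i) i rfl hi x hx

end Fold

/-! ### Parities -/

/-- The scalar product of `τ` with the bits of `t`. -/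
def par (τ : ℕ → Bool) : ℕ → ℕ → Bool
  | 0, _ => false
  | n + 1, t => xor (τ n && bt t n) (par τ n t)

theorem par_zero (τ : ℕ → Bool) : ∀ n, par τ n 0 = false
  | 0 => rfl
  | n + 1 => by simp [par, par_zero τ n, bt_eq]

theorem par_xor (τ : ℕ → Bool) (a b : ℕ) : ∀ n, par τ n (a ^^^ b) = xor (par τ n a) (par τ n b)
  | 0 => rfl
  | n + 1 => by
    simp only [par, par_xor τ a b n, bt_eq, Nat.testBit_xor]
    cases τ n <;> cases a.testBit n <;> cases b.testBit n <;> cases par τ n a <;>
      cases par τ n b <;> rfl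

theorem par_pow (τ : ℕ → Bool) (r : ℕ) : ∀ n, par τ n (2 ^ r) = (decide (r < n) && τ r)
  | 0 => by simp [par]
  | n + 1 => by
    simp only [par, par_pow τ r n, bt_eq, Nat.testBit_two_pow]
    rcases lt_trichotomy r n with h | h | h
    · simp [h, h.ne, Nat.lt_succ_of_lt h]
    · subst h; simp
    · simp [h.ne', not_lt.2 h.le, not_lt.2 (Nat.succ_le_of_lt h)]

theorem par_congr {τ σ : ℕ → Bool} : ∀ n t, (∀ l < n, τ l = σ l) → par τ n t = par σ n t
  | 0, _, _ => rfl
  | n + 1, t, h => by
    simp only [par]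
    rw [par_congr n t fun l hl => h l (Nat.lt_succ_of_lt hl), h n (Nat.lt_succ_self n)]

/-- The powers of `z` with exponents given by parities. -/
def zz {G : Type*} [Group G] (z : G) (τ : ℕ → Bool) (n t : ℕ) : G := if par τ n t then z else 1

theorem tail_zz {G : Type*} [Group G] {z : G} (hz : z * z = 1) (hc : ∀ g, z * g = g * z)
    (τ : ℕ → Bool) (n : ℕ) : Tail (zz z τ n) := by
  refine ⟨?_, ?_, ?_⟩
  · simp [zz, par_zero]
  · intro a b
    simp only [zz, par_xor]
    cases par τ n a <;> cases par τ n b <;> simp [hz]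
  · intro a g
    simp only [zz]
    split_ifs
    · exact hc g
    · simp

/-- Spreading the bits. -/
def sp (f : ℕ → ℕ) : ℕ → ℕ → ℕ
  | 0, _ => 0
  | n + 1, y => (bif bt y n then 2 ^ f n else 0) ^^^ sp f n y

theorem par_sp (τ : ℕ → Bool) (f : ℕ → ℕ) (M y : ℕ) :
    ∀ m, (∀ l < m, f l < M) → par τ M (sp f m y) = par (fun l => τ (f l)) m y
  | 0, _ => by simp [sp, par, par_zero]
  | m + 1, h => by
    simp only [sp, par, par_xor, par_sp τ f M y m fun l hl => h l (Nat.lt_succ_of_lt hl)]
    cases bt y m
    · simp [par_zero]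
    · simp [par_pow, h m (Nat.lt_succ_self m)]

theorem exists_bits (τ : ℕ → Bool) : ∀ m, ∃ y < 2 ^ m, ∀ l < m, y.testBit l = τ l
  | 0 => ⟨0, by norm_num, fun l hl => absurd hl (Nat.not_lt_zero l)⟩
  | m + 1 => by
    obtain ⟨y, hy, h⟩ := exists_bits τ m
    rcases Bool.eq_false_or_eq_true (τ m) with ht | ht
    · refine ⟨y + 2 ^ m, by rw [pow_succ]; omega, fun l hl => ?_⟩
      rcases Nat.lt_succ_iff_lt_or_eq.1 hl with h1 | h1
      · rw [Nat.add_comm, Nat.testBit_two_pow_add_gt h1, h l h1]
      · subst h1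
        rw [Nat.add_comm, Nat.testBit_two_pow_add_eq, Nat.testBit_lt_two_pow hy, ht]
        rfl
    · refine ⟨y, by rw [pow_succ]; omega, fun l hl => ?_⟩
      rcases Nat.lt_succ_iff_lt_or_eq.1 hl with h1 | h1
      · exact h l h1
      · subst h1
        rw [Nat.testBit_lt_two_pow hy, ht]

end Pool.Agent.H1.RT
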