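import Pool.Agent.H1.RT.Data

set_option autoImplicit false

/-!
Checks of the data, by evaluation in the kernel.
-/

namespace Pool.Agent.H1.RT

theorem ok0 : okb nd (nd 0) = true := by decide +kernel

theorem ok1 : okb nd (nd 1) = true := by decide +kernel

theorem ok2 : okb nd (nd 2) = true := by decide +kernel

theorem ok3 : okb nd (nd 3) = true := by decide +kernel

theorem ok4 : okb nd (nd 4) = true := by decide +kernel

theorem ok5 : okb nd (nd 5) = true := by decide +kernel

theorem ok6 : okb nd (nd 6) = true := by decide +kernel

theorem ok7 : okb nd (nd 7) = true := by decide +kernel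

theorem ok8 : okb nd (nd 8) = true := by decide +kernel

theorem ok9 : okb nd (nd 9) = true := by decide +kernel

end Pool.Agent.H1.RT
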