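import Pool.Agent.H1.RT.Data

set_option autoImplicit false

/-!
Checks of the data, by evaluation in the kernel.
-/

namespace Pool.Agent.H1.RT

theorem ok10 : okb nd (nd 10) = true := by decide +kernel

theorem ok11 : okb nd (nd 11) = true := by decide +kernel

theorem ok12 : okb nd (nd 12) = true := by decide +kernel

theorem ok13 : okb nd (nd 13) = true := by decide +kernel

theorem ok14 : okb nd (nd 14) = true := by decide +kernel

theorem ok15 : okb nd (nd 15) = true := by decide +kernel

theorem ok16 : okb nd (nd 16) = true := by decide +kernel

end Pool.Agent.H1.RT
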