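import Pool.Agent.H1.RT.Data

set_option autoImplicit false

/-!
Checks of the data, by evaluation in the kernel.
-/

namespace Pool.Agent.H1.RT

theorem ok17 : okb nd (nd 17) = true := by decide +kernel

theorem ok18 : okb nd (nd 18) = true := by decide +kernel

theorem ok19 : okb nd (nd 19) = true := by decide +kernel

theorem ok20 : okb nd (nd 20) = true := by decide +kernel

theorem ok21 : okb nd (nd 21) = true := by decide +kernel

theorem ok22 : okb nd (nd 22) = true := by decide +kernel

end Pool.Agent.H1.RT
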