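import Pool.Agent.H1.RT.Data

set_option autoImplicit false

/-!
Checks of the data, by evaluation in the kernel.
-/

namespace Pool.Agent.H1.RT

theorem ok23 : okb nd (nd 23) = true := by decide +kernel

theorem ok24 : okb nd (nd 24) = true := by decide +kernel

theorem ok25 : okb nd (nd 25) = true := by decide +kernel

theorem ok26 : okb nd (nd 26) = true := by decide +kernel

theorem ok27 : okb nd (nd 27) = true := by decide +kernel

theorem ok28 : okb nd (nd 28) = true := by decide +kernel

theorem ok29 : okb nd (nd 29) = true := by decide +kernel

end Pool.Agent.H1.RT
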