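import Pool.Agent.H1.RT.Sound

set_option autoImplicit false

/-!
Groups from tables, and invariants.
-/

namespace Pool.Agent.H1.RT

/-- Iteration. -/
def iter (f : ℕ → ℕ) : ℕ → ℕ → ℕ
  | 0, x => x
  | n + 1, x => f (iter f n x)

/-- The square in a table. -/
def sq (R : ℕ → ℕ → ℕ) (N x : ℕ) : ℕ := fm R x N x

/-- Check that a table gives a rational group with generators `gs`. -/
def exb (a : Nd) : Bool :=
  allb (fun i => allb (fun x => Nat.beq (iter (a.R i) 16 x) x) (2 ^ a.N)) a.N &&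
  (allb (fun j => allb (fun i => allb (fun x => Nat.beq (a.R i (a.R j x))
    (fm a.R (a.R i (2 ^ j)) a.N x)) (2 ^ a.N)) (j + 1)) a.N &&
  (allb (fun x => Nat.beq (sq a.R a.N (sq a.R a.N (sq a.R a.N (sq a.R a.N x)))) 0) (2 ^ a.N) &&
  (allb (fun x => !(allb (fun v => !(Nat.beq (fm a.R x a.N (fm a.R v a.N x)) v)) (2 ^ a.N)) &&
    !(allb (fun v => !(Nat.beq (fm a.R v a.N x)
      (fm a.R x a.N (fm a.R x a.N (fm a.R x a.N v))))) (2 ^ a.N))) (2 ^ a.N) &&
  (Nat.ble a.gs.length 3 && allb (fun k => a.gs.any (Nat.beq k) ||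
    (Nat.ble (a.dl.getD k (1, 0)).1 (a.dl.getD k (1, 0)).2 &&
    (Nat.blt (a.dl.getD k (1, 0)).2 k &&
      (Nat.ble (2 ^ k) (a.R (a.dl.getD k (1, 0)).1 (2 ^ (a.dl.getD k (1, 0)).2)) &&
      Nat.blt (a.R (a.dl.getD k (1, 0)).1 (2 ^ (a.dl.getD k (1, 0)).2)) (2 ^ (k + 1)))))) a.N))))

theorem iter_lt {R : ℕ → ℕ} {M : ℕ} (h : ∀ x < M, R x < M) (x : ℕ) (hx : x < M) :
    ∀ n, iter R n x < M
  | 0 => hx
  | n + 1 => h _ (iter_lt h x hx n)

theorem iter_comm (R : ℕ → ℕ) (x : ℕ) : ∀ n, iter R n (R x) = R (iter R n x)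
  | 0 => rfl
  | n + 1 => by simp only [iter, iter_comm R x n]

/-- The group given by a table. -/
theorem exists_group (a : Nd) (hR : Good a.N a.R a.S) (h : exb a = true) :
    ∃ (G : Type) (_ : Group G) (_ : Finite G), HasTab G a.N a.R ∧ Rat2 G ∧
      (∀ g : G, g ^ 16 = 1) ∧ ∃ s : Finset G, s.card ≤ 3 ∧ Subgroup.closure (s : Set G) = ⊤ := by
  classical
  unfold exb at h
  rw [Bool.and_eq_true, Bool.and_eq_true, Bool.and_eq_true, Bool.and_eq_true, Bool.and_eq_true,
    allb_iff, allb_iff, allb_iff, allb_iff, allb_iff, Nat.ble_eq] at h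
  obtain ⟨h1, h2, h3, h4, h5, h6⟩ := h
  set N := a.N with hNdef
  set R := a.R with hRdef
  have h1' : ∀ i < N, ∀ x < 2 ^ N, iter (R i) 16 x = x := fun i hi x hx =>
    (beq_iff _ _).1 ((allb_iff _ _).1 (h1 i hi) x hx)
  have h2' : ∀ j < N, ∀ i ≤ j, ∀ x < 2 ^ N, R i (R j x) = fm R (R i (2 ^ j)) N x :=
    fun j hj i hi x hx => (beq_iff _ _).1 ((allb_iff _ _).1
      ((allb_iff _ _).1 (h2 j hj) i (by omega)) x hx)
  have hex : ∀ (p : ℕ → Bool) (n : ℕ), (!(allb (fun v => !(p v)) n)) = true →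
      ∃ v < n, p v = true := by
    intro p n hp
    rw [Bool.not_eq_true', ← Bool.not_eq_true, allb_iff] at hp
    push Not at hp
    obtain ⟨v, hv, hpv⟩ := hp
    exact ⟨v, hv, by simpa using hpv⟩
  have h4' : ∀ x < 2 ^ N, (∃ v < 2 ^ N, fm R x N (fm R v N x) = v) ∧
      ∃ v < 2 ^ N, fm R v N x = fm R x N (fm R x N (fm R x N v)) := by
    intro x hx
    have h7 := h4 x hx
    rw [Bool.and_eq_true] at h7
    obtain ⟨v, hv, e⟩ := hex _ _ h7.1
    obtain ⟨w, hw, f⟩ := hex _ _ h7.2
    exact ⟨⟨v, hv, (beq_iff _ _).1 e⟩, w, hw, (beq_iff _ _).1 f⟩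
  -- the permutations
  let P : ℕ → Equiv.Perm (Fin (2 ^ N)) := fun i =>
    if hi : i < N then
      { toFun := fun x => ⟨R i x, hR.bd i hi x x.2⟩
        invFun := fun x => ⟨iter (R i) 15 x, iter_lt (hR.bd i hi) x x.2 15⟩
        left_inv := fun x => Fin.ext (by
          change iter (R i) 15 (R i x) = x
          rw [iter_comm]
          exact h1' i hi x x.2)
        right_inv := fun x => Fin.ext (by
          change R i (iter (R i) 15 x) = x
          exact h1' i hi x x.2) }
    else 1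
  have hP : ∀ i < N, ∀ x : Fin (2 ^ N), ((P i x : Fin (2 ^ N)) : ℕ) = R i x := by
    intro i hi x
    simp only [P, dif_pos hi]
    rfl
  let A : ℕ → (Equiv.Perm (Fin (2 ^ N)))ᵐᵒᵖ := fun i => MulOpposite.op (P i)
  have hev : ∀ n ≤ N, ∀ v : ℕ, ∀ x : Fin (2 ^ N),
      ((MulOpposite.unop (ev A n v) x : Fin (2 ^ N)) : ℕ) = fm R v n x := by
    intro n
    induction n with
    | zero => intro _ v x; rfl
    | succ n ih =>
      intro hn v x
      simp only [ev, fm, bt_eq]
      cases v.testBit n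
      · simpa using ih (Nat.le_of_succ_le hn) v x
      · simp only [if_true, cond_true, MulOpposite.unop_mul, Equiv.Perm.mul_apply]
        change ((P n (MulOpposite.unop (ev A n v) x) : Fin (2 ^ N)) : ℕ) = _
        rw [hP n hn, ih (Nat.le_of_succ_le hn)]
  have hrel : ∀ i j, i ≤ j → j < N → A j * A i = ev A N (R i (2 ^ j)) := by
    intro i j hij hj
    apply MulOpposite.unop_injective
    ext x
    rw [hev N le_rfl]
    change ((P i (P j x) : Fin (2 ^ N)) : ℕ) = _
    rw [hP i (by omega), hP j hj, h2' j hj i hij x x.2]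
  have hZ : Tail (fun _ : ℕ => (1 : (Equiv.Perm (Fin (2 ^ N)))ᵐᵒᵖ)) :=
    ⟨rfl, fun _ _ => by simp, fun _ _ => by simp⟩
  have hg := table_sound (A := A) (S := a.S) (Z := fun _ => 1) hZ hR
    fun i j hij hj => by rw [hrel i j hij hj, mul_one]
  have hmul : ∀ x < 2 ^ N, ∀ v, fm R v N x < 2 ^ N ∧ ev A N x * ev A N v = ev A N (fm R v N x) := by
    intro x hx v
    have := fold_sound (S := a.S) hZ hR.bd hg v x hx N le_rfl
    simpa using this
  have hfm0 : ∀ x < 2 ^ N, fm R x N 0 = x := by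
    intro x hx
    have key : ∀ n ≤ N, fm R x n 0 = x % 2 ^ n := by
      intro n
      induction n with
      | zero => intro _; simp [fm, Nat.mod_one]
      | succ n ih =>
        intro hn
        simp only [fm, bt_eq]
        rw [ih (Nat.le_of_succ_le hn)]
        have hm : x % 2 ^ (n + 1) = x % 2 ^ n + 2 ^ n * (x / 2 ^ n % 2) := Nat.mod_pow_succ
        have htb : x.testBit n = decide (x / 2 ^ n % 2 = 1) := Nat.testBit_eq_decide_div_mod_eq
        rcases Nat.mod_two_eq_zero_or_one (x / 2 ^ n) with h0 | h0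
        · rw [htb, h0, hm, h0]
          simp
        · rw [htb, h0, hm, h0]
          simp only [decide_true, cond_true, mul_one]
          exact (hR.lo n hn _ (Nat.mod_lt _ (by positivity))).1
    rw [key N le_rfl, Nat.mod_eq_of_lt hx]
  have hinj : ∀ x < 2 ^ N, ∀ y < 2 ^ N, ev A N x = ev A N y → x = y := by
    intro x hx y hy e
    have e1 := hev N le_rfl x ⟨0, by positivity⟩
    have e2 := hev N le_rfl y ⟨0, by positivity⟩
    rw [e, e2, hfm0 x hx, hfm0 y hy] at e1
    exact e1.symm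
  have hpow : ∀ x < 2 ^ N, (ev A N x) ^ 16 = 1 := by
    intro x hx
    have e1 : ∀ y < 2 ^ N, sq R N y < 2 ^ N ∧ (ev A N y) ^ 2 = ev A N (sq R N y) := by
      intro y hy
      rw [pow_two]
      exact hmul y hy y
    obtain ⟨b1, c1⟩ := e1 x hx
    obtain ⟨b2, c2⟩ := e1 _ b1
    obtain ⟨b3, c3⟩ := e1 _ b2
    obtain ⟨b4, c4⟩ := e1 _ b3
    have : (ev A N x) ^ 16 = ((((ev A N x) ^ 2) ^ 2) ^ 2) ^ 2 := by
      rw [← pow_mul, ← pow_mul, ← pow_mul]
    rw [this, c1, c2, c3, c4, (beq_iff _ _).1 (h3 x hx), ev_zero]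
  have hmem_pow : ∀ x < 2 ^ N, ∀ n : ℕ, ∃ y < 2 ^ N, ev A N y = (ev A N x) ^ n := by
    intro x hx n
    induction n with
    | zero => exact ⟨0, by positivity, by rw [pow_zero, ev_zero]⟩
    | succ n ih =>
      obtain ⟨y, hy, e⟩ := ih
      obtain ⟨b, c⟩ := hmul y hy x
      exact ⟨_, b, by rw [pow_succ, ← e, c]⟩
  let H : Subgroup (Equiv.Perm (Fin (2 ^ N)))ᵐᵒᵖ :=
    { carrier := {g | ∃ x < 2 ^ N, ev A N x = g}
      mul_mem' := by
        rintro _ _ ⟨x, hx, rfl⟩ ⟨y, hy, rfl⟩
        obtain ⟨b, c⟩ := hmul x hx y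
        exact ⟨_, b, c.symm⟩
      one_mem' := ⟨0, by positivity, ev_zero A N⟩
      inv_mem' := by
        rintro _ ⟨x, hx, rfl⟩
        obtain ⟨y, hy, e⟩ := hmem_pow x hx 15
        refine ⟨y, hy, ?_⟩
        rw [e, eq_inv_iff_mul_eq_one, ← pow_succ]
        exact hpow x hx }
  have hAmem : ∀ i < N, A i ∈ H := fun i hi =>
    ⟨2 ^ i, Nat.pow_lt_pow_right (by norm_num) hi, ev_pow A N i hi⟩
  let B : ℕ → H := fun i => if hi : i < N then ⟨A i, hAmem i hi⟩ else 1
  have hB : ∀ x, ((ev B N x : H) : (Equiv.Perm (Fin (2 ^ N)))ᵐᵒᵖ) = ev A N x := by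
    intro x
    have := map_ev H.subtype B N x
    rw [Subgroup.coe_subtype] at this
    rw [this]
    apply ev_congr
    intro l hl
    simp only [B, dif_pos hl]
  have hBi : ∀ i < N, ((B i : H) : (Equiv.Perm (Fin (2 ^ N)))ᵐᵒᵖ) = A i := by
    intro i hi
    simp only [B, dif_pos hi]
  have hBmul : ∀ x < 2 ^ N, ∀ v, ev B N x * ev B N v = ev B N (fm R v N x) := by
    intro x hx v
    apply Subtype.ext
    rw [Subgroup.coe_mul, hB, hB, hB]
    exact (hmul x hx v).2
  have hBrel : ∀ i j, i ≤ j → j < N → B j * B i = ev B N (R i (2 ^ j)) := by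
    intro i j hij hj
    apply Subtype.ext
    rw [Subgroup.coe_mul, hBi j hj, hBi i (by omega), hB]
    exact hrel i j hij hj
  have hBsurj : ∀ g : H, ∃ x < 2 ^ N, ev B N x = g := by
    rintro ⟨_, x, hx, rfl⟩
    exact ⟨x, hx, Subtype.ext (hB x)⟩
  have hfin : Finite (Equiv.Perm (Fin (2 ^ N)))ᵐᵒᵖ := Finite.of_equiv _ MulOpposite.opEquiv
  have hfinH : Finite H := Subtype.finite
  refine ⟨H, inferInstance, hfinH, ⟨B, hBrel, hBsurj, fun x hx y hy e => ?_⟩, fun g => ?_,
    fun g => ?_, ?_⟩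
  · apply hinj x hx y hy
    rw [← hB, ← hB, e]
  · obtain ⟨x, hx, rfl⟩ := hBsurj g
    obtain ⟨⟨v, hv, e⟩, w, hw, f⟩ := h4' x hx
    refine ⟨⟨ev B N v, ?_⟩, ev B N w, ?_⟩
    · rw [hBmul x hx, hBmul _ (hmul x hx v).1, e]
    · rw [hBmul x hx, f, hBmul w hw, hBmul _ (hmul w hw x).1,
        hBmul _ (hmul _ (hmul w hw x).1 x).1]
  · obtain ⟨x, hx, rfl⟩ := hBsurj g
    apply Subtype.ext
    rw [Subgroup.coe_pow, hB, hpow x hx]
    rfl
  · refine ⟨(a.gs.map B).toFinset, (List.toFinset_card_le _).trans (by simpa using h5), ?_⟩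
    set C := Subgroup.closure (((a.gs.map B).toFinset : Finset H) : Set H) with hC
    have hgs : ∀ k ∈ a.gs, B k ∈ C := by
      intro k hk
      apply Subgroup.subset_closure
      simp only [List.coe_toFinset, Set.mem_ofPred_eq, List.mem_map]
      exact ⟨k, hk, rfl⟩
    have hall : ∀ k < N, B k ∈ C := by
      intro k
      induction k using Nat.strong_induction_on with
      | _ k ih =>
        intro hk
        have h7 := h6 k hk
        rw [Bool.or_eq_true] at h7
        rcases h7 with h7 | h7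
        · obtain ⟨l, hl, e⟩ := List.any_eq_true.1 h7
          rw [(beq_iff _ _).1 e]
          exact hgs l hl
        · rw [Bool.and_eq_true, Bool.and_eq_true, Bool.and_eq_true, Nat.ble_eq, blt_iff,
            Nat.ble_eq, blt_iff] at h7
          obtain ⟨d1, d2, d3, d4⟩ := h7
          set i := (a.dl.getD k (1, 0)).1
          set j := (a.dl.getD k (1, 0)).2
          have hr := hBrel i j d1 (by omega)
          obtain ⟨w, hw⟩ : ∃ w, R i (2 ^ j) = w + 2 ^ k := ⟨R i (2 ^ j) - 2 ^ k, by omega⟩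
          have hwlt : w < 2 ^ k := by rw [pow_succ] at d4; omega
          rw [hw, ev_add B N k w hwlt hk] at hr
          have hwC : ev B N w ∈ C := by
            rw [ev_of_lt B k w hwlt N hk.le]
            have h8 : ∀ n ≤ k, ev B n w ∈ C := by
              intro n
              induction n with
              | zero => intro _; exact C.one_mem
              | succ n ihn =>
                intro hn
                simp only [ev]
                split_ifs
                · exact C.mul_mem (ihn (Nat.le_of_succ_le hn)) (ih n hn (by omega))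
                · simpa using ihn (Nat.le_of_succ_le hn)
            exact h8 k le_rfl
          have h9 : B k = (ev B N w)⁻¹ * (B j * B i) := by rw [hr]; group
          rw [h9]
          exact C.mul_mem (C.inv_mem hwC) (C.mul_mem (ih j d2 (by omega)) (ih i (by omega)
            (by omega)))
    rw [eq_top_iff]
    intro g _
    obtain ⟨x, hx, rfl⟩ := hBsurj g
    have h8 : ∀ n ≤ N, ev B n x ∈ C := by
      intro n
      induction n with
      | zero => intro _; exact C.one_mem
      | succ n ihn =>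
        intro hn
        simp only [ev]
        split_ifs
        · exact C.mul_mem (ihn (Nat.le_of_succ_le hn)) (hall n hn)
        · simpa using ihn (Nat.le_of_succ_le hn)
    exact h8 N le_rfl

end Pool.Agent.H1.RT
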