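import Pool.Agent.H1.RT.Main
import Pool.Agent.H1.RT.Chk0
import Pool.Agent.H1.RT.Chk1
import Pool.Agent.H1.RT.Chk2
import Pool.Agent.H1.RT.Chk3

set_option autoImplicit false

/-!
All rational 2-groups with at most three generators are in the list.
-/

namespace Pool.Agent.H1.RT

theorem ok_all (c : ℕ) (hc : c < 30) : okb nd (nd c) = true := by
  interval_cases c
  · exact ok0
  · exact ok1
  · exact ok2
  · exact ok3
  · exact ok4
  · exact ok5
  · exact ok6
  · exact ok7
  · exact ok8
  · exact ok9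
  · exact ok10
  · exact ok11
  · exact ok12
  · exact ok13
  · exact ok14
  · exact ok15
  · exact ok16
  · exact ok17
  · exact ok18
  · exact ok19
  · exact ok20
  · exact ok21
  · exact ok22
  · exact ok23
  · exact ok24
  · exact ok25
  · exact ok26
  · exact ok27
  · exact ok28
  · exact ok29

theorem good_all (c : ℕ) (hc : c < 30) : Good (nd c).N (nd c).R (nd c).S := by
  have h := ok_all c hc
  unfold okb at h
  rw [Bool.and_eq_true] at h
  exact good_of_goodb h.1

theorem N_le (c : ℕ) (hc : c < 30) : (nd c).N ≤ 8 := by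
  have h := ok_all c hc
  unfold okb at h
  rw [Bool.and_eq_true, Bool.and_eq_true, Bool.and_eq_true] at h
  have h1 := h.2.2.1
  unfold relb at h1
  rw [Bool.and_eq_true, Nat.ble_eq] at h1
  exact h1.1

theorem HasTab.card {G : Type} [Group G] {N : ℕ} {R : ℕ → ℕ → ℕ} (h : HasTab G N R) :
    Nat.card G = 2 ^ N := by
  obtain ⟨A, _, h2, h3⟩ := h
  have h7 : Function.Bijective fun p : Fin (2 ^ N) => ev A N p := by
    constructor
    · intro x x' e
      exact Fin.ext (h3 x x.2 x' x'.2 e)
    · intro g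
      obtain ⟨x, hx, e⟩ := h2 g
      exact ⟨⟨x, hx⟩, e⟩
  rw [← Nat.card_eq_of_bijective _ h7]
  simp

theorem HasTab.iso {G H : Type} [Group G] [Group H] {N : ℕ} {R S : ℕ → ℕ → ℕ} (hR : Good N R S)
    (h : HasTab G N R) (h' : HasTab H N R) : Nonempty (G ≃* H) := by
  obtain ⟨A, a1, a2, a3⟩ := h
  obtain ⟨B, b1, b2, b3⟩ := h'
  have hZ : Tail (fun _ : ℕ => (1 : G)) := ⟨rfl, fun _ _ => by simp, fun _ _ => by simp⟩
  have hZ' : Tail (fun _ : ℕ => (1 : H)) := ⟨rfl, fun _ _ => by simp, fun _ _ => by simp⟩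
  have hg := table_sound (A := A) (S := S) (Z := fun _ => 1) hZ hR
    fun i j hij hj => by rw [a1 i j hij hj, mul_one]
  have hg' := table_sound (A := B) (S := S) (Z := fun _ => 1) hZ' hR
    fun i j hij hj => by rw [b1 i j hij hj, mul_one]
  choose X hX hXe using a2
  choose Y hY hYe using b2
  refine ⟨MulEquiv.mk' (Equiv.mk (fun g => ev B N (X g)) (fun g => ev A N (Y g)) ?_ ?_) ?_⟩
  · intro g
    have h1 : Y (ev B N (X g)) = X g := b3 _ (hY _) _ (hX _) (hYe _)
    simp only [h1, hXe]
  · intro g
    have h1 : X (ev A N (Y g)) = Y g := a3 _ (hX _) _ (hY _) (hXe _)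
    simp only [h1, hYe]
  · intro g g'
    obtain ⟨m1, m2⟩ := fold_sound (S := S) hZ hR.bd hg (X g') (X g) (hX g) N le_rfl
    obtain ⟨m3, m4⟩ := fold_sound (S := S) hZ' hR.bd hg' (X g') (X g) (hX g) N le_rfl
    rw [mul_one, hXe, hXe] at m2
    rw [mul_one] at m4
    have h1 : X (g * g') = fm R (X g') N (X g) := a3 _ (hX _) _ m1 (by rw [hXe, m2])
    change ev B N (X (g * g')) = ev B N (X g) * ev B N (X g')
    rw [h1, m4]

theorem Rat2.map {G Q : Type} [Group G] [Group Q] (h : Rat2 G) (π : G →* Q)
    (hπ : Function.Surjective π) : Rat2 Q := by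
  intro q
  obtain ⟨g, rfl⟩ := hπ q
  obtain ⟨⟨a, ha⟩, b, hb⟩ := h g
  refine ⟨⟨π a, ?_⟩, π b, ?_⟩
  · rw [← map_mul, ← map_mul, ha]
  · rw [← map_mul, hb, map_mul, map_mul, map_mul]

theorem all_groups : ∀ (n : ℕ) (G : Type) [Group G] [Finite G], Nat.card G ≤ n → IsPGroup 2 G →
    Rat2 G → Group.rank G ≤ 3 → ∃ c < 30, HasTab G (nd c).N (nd c).R := by
  intro n
  induction n with
  | zero =>
    intro G _ _ h
    have : 0 < Nat.card G := Nat.card_pos
    omega
  | succ n ih =>
    intro G _ _ hn hp hr hk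
    rcases subsingleton_or_nontrivial G with hG | hG
    · refine ⟨0, by norm_num, fun _ => 1, fun i j _ hj => absurd hj (Nat.not_lt_zero _),
        fun g => ⟨0, by norm_num, Subsingleton.elim _ _⟩, fun x hx y hy _ => ?_⟩
      have hN : (nd 0).N = 0 := rfl
      rw [hN] at hx hy
      omega
    · have : Fact (Nat.Prime 2) := ⟨Nat.prime_two⟩
      have := hp.center_nontrivial
      have hpc := hp.to_subgroup (Subgroup.center G)
      obtain ⟨m, hm⟩ := (IsPGroup.iff_card).1 hpc
      have hm0 : m ≠ 0 := by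
        rintro rfl
        rw [pow_zero] at hm
        have := Finite.one_lt_card (α := Subgroup.center G)
        omega
      obtain ⟨w, hw⟩ := exists_prime_orderOf_dvd_card' (G := Subgroup.center G) 2
        (by rw [hm]; exact dvd_pow_self 2 hm0)
      obtain ⟨z, hzc⟩ := w
      have hz : orderOf z = 2 := by rw [← hw]; exact (Subgroup.orderOf_mk z hzc).symm
      have hcomm : ∀ g, z * g = g * z := fun g => ((Subgroup.mem_center_iff.1 hzc) g).symm
      have hz2 : z * z = 1 := by rw [← pow_two, ← hz]; exact pow_orderOf_eq_one z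
      have hz1 : z ≠ 1 := by
        intro h
        rw [h, orderOf_one] at hz
        exact absurd hz (by norm_num)
      have hmem : ∀ x ∈ Subgroup.zpowers z, x = 1 ∨ x = z := by
        intro x hx
        obtain ⟨k, rfl⟩ := Subgroup.mem_zpowers_iff.1 hx
        rcases Int.even_or_odd' k with ⟨l, rfl | rfl⟩
        · left
          rw [zpow_mul, zpow_two, hz2, one_zpow]
        · right
          rw [zpow_add, zpow_mul, zpow_two, hz2, one_zpow, one_mul, zpow_one]
      have hnorm : (Subgroup.zpowers z).Normal := by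
        constructor
        intro x hx g
        rcases hmem x hx with rfl | rfl
        · simp
        · rw [← hcomm g, mul_inv_cancel_right]
          exact hx
      let π := QuotientGroup.mk' (Subgroup.zpowers z)
      have hπ : Function.Surjective π := QuotientGroup.mk'_surjective _
      have hker : ∀ g h, π g = π h → g = h ∨ g = h * z := by
        intro g h e
        have h1 : h⁻¹ * g ∈ Subgroup.zpowers z := QuotientGroup.eq.1 e.symm
        rcases hmem _ h1 with h2 | h2
        · left; rw [inv_mul_eq_one] at h2; exact h2.symm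
        · right; rw [← h2]; group
      have hcard := Subgroup.card_eq_card_quotient_mul_card_subgroup (Subgroup.zpowers z)
      rw [Nat.card_zpowers, hz] at hcard
      have hpos : 0 < Nat.card (G ⧸ Subgroup.zpowers z) := Nat.card_pos
      obtain ⟨c, hc, htab⟩ := ih (G ⧸ Subgroup.zpowers z) (by omega) (hp.to_quotient _)
        (hr.map π hπ) ((Group.rank_le_of_surjective π hπ).trans hk)
      exact step nd ok_all (nd c) (ok_all c hc) π hπ z hz1 hz2 hcomm
        ((QuotientGroup.eq_one_iff z).2 (Subgroup.mem_zpowers z)) hker hr hk htab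

/-- In a finite 2-group, odd powers of an element generate the same cyclic subgroup. -/
theorem zpowers_odd {G : Type} [Group G] [Finite G] (hp : IsPGroup 2 G) (x : G) (u : ℕ)
    (hu : Odd u) : Subgroup.zpowers x = Subgroup.zpowers (x ^ u) := by
  have hle : Subgroup.zpowers (x ^ u) ≤ Subgroup.zpowers x := by
    rw [Subgroup.zpowers_le]
    exact Subgroup.pow_mem _ (Subgroup.mem_zpowers x) u
  obtain ⟨k, hk⟩ := (IsPGroup.iff_orderOf.mp hp) x
  have hcop : (orderOf x).Coprime u := by
    rw [hk]
    exact Nat.Coprime.pow_left k (Nat.coprime_two_left.mpr hu)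
  have hord : orderOf (x ^ u) = orderOf x := hcop.orderOf_pow
  symm
  apply Subgroup.eq_of_le_of_card_ge hle
  rw [Nat.card_zpowers, Nat.card_zpowers, hord]

theorem rat2_of_rational {G : Type} [Group G] [Finite G] (hp : IsPGroup 2 G)
    (h : ∀ x y : G, Subgroup.zpowers x = Subgroup.zpowers y → IsConj x y) : Rat2 G := by
  intro g
  constructor
  · obtain ⟨c, hc⟩ := isConj_iff.1 (h g g⁻¹ (Subgroup.zpowers_inv (g := g)).symm)
    refine ⟨c, ?_⟩
    have h1 : c * g = g⁻¹ * c := by rw [← hc]; group
    rw [mul_assoc, h1]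
    group
  · obtain ⟨c, hc⟩ := isConj_iff.1 (h g (g ^ 3) (zpowers_odd hp g 3 ⟨1, by norm_num⟩))
    refine ⟨c⁻¹, ?_⟩
    have h1 : g ^ 3 = g * g * g := by rw [pow_succ, pow_two]
    have h2 : c⁻¹ * (g * g * g) = g * c⁻¹ := by rw [← h1, ← hc]; group
    rw [← h2]
    group

end Pool.Agent.H1.RT
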