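import Pool.Agent.H1.RT.Sound

set_option autoImplicit false

/-!
The step of the induction.
-/

namespace Pool.Agent.H1.RT

section

variable {a : Nd} {y : ℕ} {G : Type} [Group G] {z : G} {A : ℕ → G}

theorem bit_fold {R : ℕ → ℕ → ℕ} {N p : ℕ} (hb : ∀ i < N, ∀ x < 2 ^ N, R i x < 2 ^ N)
    (h : ∀ i < N, ∀ x < 2 ^ N, bt (R i x) p = xor (bt x p) (Nat.beq i p)) (v x : ℕ)
    (hx : x < 2 ^ N) : ∀ n ≤ N, fm R v n x < 2 ^ N ∧
      bt (fm R v n x) p = xor (bt x p) (decide (p < n) && bt v p) := by
  intro n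
  induction n with
  | zero => intro _; exact ⟨hx, by simp [fm]⟩
  | succ n ih =>
    intro hn
    obtain ⟨h1, h2⟩ := ih (Nat.le_of_succ_le hn)
    simp only [fm]
    by_cases hnp : n = p
    · subst hnp
      cases hv : bt v n
      · simp only [cond_false]
        exact ⟨h1, by rw [h2, hv]; simp⟩
      · simp only [cond_true]
        refine ⟨hb n hn _ h1, ?_⟩
        rw [h n hn _ h1, h2]
        simp [hv, Nat.beq_refl]
    · have hb' : Nat.beq n p = false := by
        rw [← Bool.not_eq_true, beq_iff]; exact hnp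
      have hlt : decide (p < n + 1) = decide (p < n) := by
        rw [decide_eq_decide]; omega
      rw [hlt]
      cases hv : bt v n
      · simp only [cond_false]
        exact ⟨h1, h2⟩
      · simp only [cond_true]
        refine ⟨hb n hn _ h1, ?_⟩
        rw [h n hn _ h1, h2, hb', Bool.xor_false]

/-- The multiplicative group of order two. -/
def bm (b : Bool) : Multiplicative (ZMod 2) := Multiplicative.ofAdd (if b then 1 else 0)

theorem bm_xor (s t : Bool) : bm (xor s t) = bm s * bm t := by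
  cases s <;> cases t <;> decide

theorem table_four : ∀ (s0 s1 s2 s3 : Bool) (k : Fin 4),
    ((if s0 = true then fun k : Fin 4 => bm (decide (k.val = 0)) else 1) *
      (if s1 = true then fun k : Fin 4 => bm (decide (k.val = 1)) else 1) *
      (if s2 = true then fun k : Fin 4 => bm (decide (k.val = 2)) else 1) *
      (if s3 = true then fun k : Fin 4 => bm (decide (k.val = 3)) else 1)) k =
    bm (![s0, s1, s2, s3] k) := by
  decide

/-- A split extension needs four generators. -/
theorem Ext.split [Finite G] (h : Ext a y z A) (hy : y = 0)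
    (hg1 : ∀ k < 3, a.gs.getD k 0 < a.N)
    (hg2 : ∀ k < 3, ∀ l < 3, k ≠ l → a.gs.getD k 0 ≠ a.gs.getD l 0)
    (hg3 : ∀ k < 3, ∀ i < a.N, ∀ x < 2 ^ a.N,
      bt (a.R i x) (a.gs.getD k 0) = xor (bt x (a.gs.getD k 0)) (Nat.beq i (a.gs.getD k 0)))
    (hr : Group.rank G ≤ 3) : False := by
  classical
  choose X hX E hE using h.surj
  have hpar : ∀ n t, par (bt y) n t = false := by
    intro n t
    subst hy
    induction n with
    | zero => rfl
    | succ n ih => simp [par, ih, bt_eq]
  have hXE : ∀ g g', X (g * g') = fm a.R (X g') a.N (X g) ∧ E (g * g') = xor (E g) (E g') := by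
    intro g g'
    obtain ⟨m1, m2⟩ := h.mul (X g') (X g) (hX g)
    rw [hpar] at m2
    have e : ev A a.N (X (g * g')) * zb z (E (g * g')) =
        ev A a.N (fm a.R (X g') a.N (X g)) * zb z (xor (E g) (E g')) := by
      rw [← hE (g * g')]
      conv_lhs => rw [hE g, hE g']
      rw [mul_assoc, ← mul_assoc (zb z _) (ev A a.N _), zb_comm h.zc,
        mul_assoc (ev A a.N _) (zb z _), ← mul_assoc, m2, zb_mul h.z2]
      simp [zb]
    exact h.inj _ (hX _) _ m1 _ _ e
  have hXA : ∀ l < a.N, X (A l) = 2 ^ l ∧ E (A l) = false := by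
    intro l hl
    have h3 : 2 ^ l < 2 ^ a.N := Nat.pow_lt_pow_right (by norm_num) hl
    apply h.inj _ (hX _) _ h3
    rw [← hE, ev_pow A a.N l hl]
    simp [zb]
  have hXz : X z = 0 ∧ E z = true := by
    apply h.inj _ (hX _) _ (by positivity)
    rw [← hE, ev_zero]
    simp [zb]
  let χ : Fin 4 → G → Bool := fun k g => if k.val = 3 then E g else bt (X g) (a.gs.getD k.val 0)
  have hχ : ∀ k g g', χ k (g * g') = xor (χ k g) (χ k g') := by
    intro k g g'
    obtain ⟨e1, e2⟩ := hXE g g'
    by_cases hk : k.val = 3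
    · simp only [χ, hk, if_true]
      exact e2
    · have hk3 : k.val < 3 := by omega
      simp only [χ, hk, if_false]
      rw [e1, (bit_fold h.hW.bd (hg3 k.val hk3) (X g') (X g) (hX g) a.N le_rfl).2]
      simp only [hg1 k.val hk3, decide_true, Bool.true_and]
  let f : G →* (Fin 4 → Multiplicative (ZMod 2)) := MonoidHom.mk' (fun g k => bm (χ k g)) (by
    intro g g'
    funext k
    rw [Pi.mul_apply, hχ k g g', bm_xor])
  have hfA : ∀ l : Fin 3, f (A (a.gs.getD l.val 0)) = fun k => bm (decide (k.val = l.val)) := by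
    intro l
    obtain ⟨e1, e2⟩ := hXA _ (hg1 l.val l.2)
    funext k
    change bm (χ k _) = _
    congr 1
    by_cases hk : k.val = 3
    · simp only [χ, hk, if_true, e2]
      have : ¬ (3 = l.val) := by omega
      simp [this]
    · simp only [χ, hk, if_false, e1, bt_eq, Nat.testBit_two_pow]
      rw [decide_eq_decide]
      constructor
      · intro hh
        by_contra hne
        exact hg2 k.val (by omega) l.val l.2 hne hh.symm
      · intro hh
        rw [hh]
  have hfz : f z = fun k => bm (decide (k.val = 3)) := by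
    funext k
    change bm (χ k _) = _
    congr 1
    by_cases hk : k.val = 3
    · simp [χ, hk, hXz.2]
    · simp [χ, hk, hXz.1, bt_eq]
  have hsurj : Function.Surjective f := by
    intro t
    have hb : ∀ u : Multiplicative (ZMod 2), ∃ s : Bool, u = bm s := by decide
    choose s hs using fun k => hb (t k)
    refine ⟨(if s 0 then A (a.gs.getD 0 0) else 1) * (if s 1 then A (a.gs.getD 1 0) else 1) *
      (if s 2 then A (a.gs.getD 2 0) else 1) * (if s 3 then z else 1), ?_⟩
    have h0 := hfA 0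
    have h1 := hfA 1
    have h2 := hfA 2
    change f (A (a.gs.getD 0 0)) = fun k => bm (decide (k.val = 0)) at h0
    change f (A (a.gs.getD 1 0)) = fun k => bm (decide (k.val = 1)) at h1
    change f (A (a.gs.getD 2 0)) = fun k => bm (decide (k.val = 2)) at h2
    funext k
    have hs4 : s k = ![s 0, s 1, s 2, s 3] k := by fin_cases k <;> rfl
    rw [hs k, map_mul, map_mul, map_mul, apply_ite f, apply_ite f, apply_ite f, apply_ite f,
      h0, h1, h2, hfz, map_one, hs4]
    exact table_four (s 0) (s 1) (s 2) (s 3) k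
  have hrank : Group.rank (Fin 4 → Multiplicative (ZMod 2)) ≤ 3 :=
    (Group.rank_le_of_surjective f hsurj).trans hr
  have hdvd := card_dvd_exponent_pow_rank' (Fin 4 → Multiplicative (ZMod 2)) (n := 2) (by decide)
  have hcard : Nat.card (Fin 4 → Multiplicative (ZMod 2)) = 16 := by
    rw [Nat.card_eq_fintype_card]
    rfl
  rw [hcard] at hdvd
  have h16 := Nat.le_of_dvd (by positivity) hdvd
  have h8 : 2 ^ Group.rank (Fin 4 → Multiplicative (ZMod 2)) ≤ 2 ^ 3 :=
    Nat.pow_le_pow_right (by norm_num) hrank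
  omega

end

theorem small_par {G : Type} [Group G] {z : G} {A : ℕ → G} {N : ℕ} {R S : ℕ → ℕ → ℕ}
    {τ : ℕ → Bool} (hz1 : z ≠ 1) (hz2 : z * z = 1) (hzc : ∀ g, z * g = g * z)
    (hS : Good N R S)
    (hg : ∀ i < N, ∀ x < 2 ^ N, ev A N x * A i = ev A N (R i x) * zz z τ 64 (S i x))
    (inj : ∀ x < 2 ^ N, ∀ x' < 2 ^ N, ∀ s t : Bool,
      ev A N x * zb z s = ev A N x' * zb z t → x = x' ∧ s = t) :
    ∀ l : List (ℕ × ℕ × ℕ), small N l = true → par τ 64 (xors R S N l) = false
  | [], _ => par_zero τ 64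
  | (i, j, k) :: l, h => by
    simp only [small, Bool.and_eq_true, blt_iff] at h
    obtain ⟨⟨hi, hj, hk⟩, hl⟩ := h
    have hZ := tail_zz hz2 hzc τ 64
    simp only [xors, par_xor, small_par hz1 hz2 hzc hS hg inj l hl, Bool.xor_false, cons]
    have h3 : ∀ l < N, 2 ^ l < 2 ^ N := fun l hl => Nat.pow_lt_pow_right (by norm_num) hl
    have e1 : ev A N (2 ^ k) * A j * A i = ev A N (R i (R j (2 ^ k))) *
        zb z (par τ 64 (S j (2 ^ k) ^^^ S i (R j (2 ^ k)))) := by
      rw [hg j hj _ (h3 k hk), mul_assoc, hZ.comm, ← mul_assoc,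
        hg i hi _ (hS.bd j hj _ (h3 k hk)), mul_assoc, ← hZ.comm, ← hZ.xor, zz_zb]
    obtain ⟨f1, f2⟩ := fold_sound hZ hS.bd hg (R i (2 ^ j)) (2 ^ k) (h3 k hk) N le_rfl
    have e2 : ev A N (2 ^ k) * A j * A i = ev A N (fm R (R i (2 ^ j)) N (2 ^ k)) *
        zb z (par τ 64 (S i (2 ^ j) ^^^ ft R S (R i (2 ^ j)) N (2 ^ k))) := by
      rw [mul_assoc, ← ev_pow A N j hj, hg i hi _ (h3 j hj), ← mul_assoc, f2, mul_assoc, ← hZ.comm,
        ← hZ.xor, zz_zb]
    have e3 := (inj _ (hS.bd i hi _ (hS.bd j hj _ (h3 k hk))) _ f1 _ _ (e1.symm.trans e2)).2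
    rw [par_xor, par_xor] at e3
    rw [e3]
    simp

/-- The step: a rational central extension, by a group of order two, of a group in the list is in
the list. -/
theorem step (nd : ℕ → Nd) (hall : ∀ c < 30, okb nd (nd c) = true) (a : Nd)
    (hok : okb nd a = true) {G Q : Type} [Group G] [Group Q] [Finite G] (π : G →* Q)
    (hπ : Function.Surjective π) (z : G) (hz1 : z ≠ 1) (hz2 : z * z = 1)
    (hzc : ∀ g, z * g = g * z) (hzπ : π z = 1) (hker : ∀ g h, π g = π h → g = h ∨ g = h * z)
    (hrat : Rat2 G) (hrank : Group.rank G ≤ 3) (htab : HasTab Q a.N a.R) :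
    ∃ c < 30, HasTab G (nd c).N (nd c).R := by
  classical
  obtain ⟨B, b1, b2, b3⟩ := htab
  unfold okb at hok
  rw [Bool.and_eq_true, Bool.and_eq_true, Bool.and_eq_true, Bool.and_eq_true, allb_iff] at hok
  obtain ⟨hS, hW, hrel, hwt, hcs⟩ := hok
  replace hS := good_of_goodb hS
  replace hW := good_of_goodb hW
  unfold relb at hrel
  rw [Bool.and_eq_true, Bool.and_eq_true, Bool.and_eq_true, Nat.ble_eq, allb_iff, allb_iff,
    allb_iff] at hrel
  obtain ⟨hN8, hfr, hdl, hpair⟩ := hrel
  obtain ⟨A, hA, hAd⟩ := lifts π hπ a.N a.R (fun k => a.dl.getD k (1, 0)) B b1 (by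
    intro k hk hle
    have h1 := hdl k hk
    rw [(by rw [Nat.ble_eq]; exact hle : Nat.ble (a.dl.getD k (1, 0)).1 (a.dl.getD k (1, 0)).2 = true),
      cond_true, Bool.and_eq_true, Bool.and_eq_true, blt_iff, Nat.ble_eq, blt_iff] at h1
    exact h1)
  have hev : ∀ x, π (ev A a.N x) = ev B a.N x := fun x => by
    rw [map_ev]; exact ev_congr a.N x fun l hl => hA l hl
  have hπb : ∀ s : Bool, π (zb z s) = 1 := by
    intro s; cases s <;> simp [zb, hzπ]
  have inj : ∀ x < 2 ^ a.N, ∀ x' < 2 ^ a.N, ∀ s t : Bool,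
      ev A a.N x * zb z s = ev A a.N x' * zb z t → x = x' ∧ s = t := by
    intro x hx x' hx' s t e
    have e1 := congrArg π e
    rw [map_mul, map_mul, hπb, hπb, mul_one, mul_one, hev, hev] at e1
    have e2 := b3 x hx x' hx' e1
    subst e2
    have e3 := mul_left_cancel e
    refine ⟨rfl, ?_⟩
    cases s <;> cases t <;> simp [zb] at e3 ⊢
    · exact hz1 e3.symm
    · exact hz1 e3
  let τ : ℕ → Bool := fun r =>
    decide (A (r / 8) * A (r % 8) ≠ ev A a.N (a.R (r % 8) (2 ^ (r / 8))))
  have hrelS : ∀ i j, i ≤ j → j < a.N →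
      A j * A i = ev A a.N (a.R i (2 ^ j)) * zz z τ 64 (a.S i (2 ^ j)) := by
    intro i j hij hj
    have h1 := (allb_iff _ _).1 (hpair j hj) i (by omega)
    rw [Bool.and_eq_true, Bool.or_eq_true, beq_iff, Bool.and_eq_true, beq_iff] at h1
    rcases h1.1 with h2 | ⟨h2, h3⟩
    · rw [h2, zz_zb, par_pow]
      have hlt : 8 * j + i < 64 := by omega
      have hd : (8 * j + i) / 8 = j := by omega
      have hm : (8 * j + i) % 8 = i := by omega
      have hτ : τ (8 * j + i) = decide (A j * A i ≠ ev A a.N (a.R i (2 ^ j))) := by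
        simp only [τ, hd, hm]
      rw [decide_eq_true hlt, Bool.true_and, hτ]
      by_cases he : A j * A i = ev A a.N (a.R i (2 ^ j))
      · rw [decide_eq_false (fun hc => hc he)]
        simpa [zb] using he
      · rw [decide_eq_true he]
        have h5 : π (A j * A i) = π (ev A a.N (a.R i (2 ^ j))) := by
          rw [map_mul, hA j hj, hA i (by omega), hev, b1 i j hij hj]
        rcases hker _ _ h5 with h6 | h6
        · exact absurd h6 he
        · simpa [zb] using h6
    · rw [h2, zz_zb, par_zero]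
      rw [Bool.not_eq_true', ← Bool.not_eq_true, allb_iff] at h3
      push Not at h3
      obtain ⟨k, hk, h4⟩ := h3
      rw [ne_eq, Bool.not_eq_true, Bool.not_eq_false', Bool.and_eq_true, beq_iff, beq_iff] at h4
      have h5 := hAd k hk (by simp only [h4.1, h4.2]; exact hij)
      simp only [h4.1, h4.2] at h5
      simpa [zb] using h5
  have hgS := table_sound (tail_zz hz2 hzc τ 64) hS hrelS
  have hsm := small_par hz1 hz2 hzc hS hgS inj
  let σ : ℕ → Bool := fun l => τ (a.fr.getD l 0)
  obtain ⟨y, hy, hyσ⟩ := exists_bits σ a.m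
  have hrelW : ∀ i j, i ≤ j → j < a.N →
      A j * A i = ev A a.N (a.R i (2 ^ j)) * zz z (bt y) a.m (a.W i (2 ^ j)) := by
    intro i j hij hj
    rw [hrelS i j hij hj, zz_zb, zz_zb]
    congr 2
    have h1 := (allb_iff _ _).1 (hpair j hj) i (by omega)
    rw [Bool.and_eq_true, Bool.and_eq_true, beq_iff] at h1
    have h2 := hsm _ h1.2.1
    rw [h1.2.2, par_xor, par_sp τ (fun l => a.fr.getD l 0) 64 _ a.m
      (fun l hl => (blt_iff _ _).1 (hfr l hl))] at h2
    have h3 : par τ 64 (a.S i (2 ^ j)) = par (fun l => τ (a.fr.getD l 0)) a.m (a.W i (2 ^ j)) := by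
      revert h2
      cases par τ 64 (a.S i (2 ^ j)) <;>
        cases par (fun l => τ (a.fr.getD l 0)) a.m (a.W i (2 ^ j)) <;> simp
    rw [h3]
    exact par_congr a.m _ fun l hl => by rw [bt_eq, hyσ l hl]
  have hext : Ext a y z A := ⟨hzc, hz2, hz1, table_sound (tail_zz hz2 hzc (bt y) a.m) hW hrelW,
    fun g => by
      obtain ⟨x, hx, e⟩ := b2 (π g)
      rw [← hev] at e
      rcases hker g _ e.symm with h1 | h1
      · exact ⟨x, hx, false, by simpa [zb] using h1⟩
      · exact ⟨x, hx, true, by simpa [zb] using h1⟩, inj, hW⟩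
  have hc := hcs y hy
  generalize hcase : a.cs.getD y (Cs.bad 1000) = cs at hc
  cases cs with
  | bad w =>
    exfalso
    simp only [caseb, Bool.and_eq_true, blt_iff] at hc
    have h1 : a.wt.getD w (false, 0, []) ∈ a.wt := by
      rw [List.getD_eq_getElem _ _ hc.1]
      exact List.getElem_mem hc.1
    exact hext.bad hrat _ (List.all_eq_true.1 hwt _ h1) hc.2
  | good c im iv =>
    simp only [caseb, Bool.and_eq_true, blt_iff, beq_iff, allb_iff] at hc
    obtain ⟨hc30, hcN, hc1, hc2⟩ := hc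
    refine ⟨c, hc30, hext.good ?_ im iv hcN (fun j hj i hi => hc1 j hj i hi)
      fun l hl => hc2 l hl⟩
    have h1 := hall c hc30
    unfold okb at h1
    rw [Bool.and_eq_true] at h1
    exact good_of_goodb h1.1
  | split =>
    exfalso
    simp only [caseb, Bool.and_eq_true, blt_iff, beq_iff, allb_iff, Bool.or_eq_true,
      Bool.not_eq_true'] at hc
    obtain ⟨hy0, -, hc1, hc2⟩ := hc
    refine hext.split hy0 (fun k hk => (hc1 k hk).1) (fun k hk l hl hkl => ?_)
      (fun k hk i hi x hx => by simpa using hc2 k hk i hi x hx) hrank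
    rcases (hc1 k hk).2 l hl with h1 | h1
    · exact absurd h1 hkl
    · intro h2
      rw [h2, Nat.beq_refl] at h1
      exact absurd h1 (by simp)

end Pool.Agent.H1.RT
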