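import Pool.Agent.H1.RT.Step

set_option autoImplicit false

/-!
Soundness of the checks.
-/

namespace Pool.Agent.H1.RT

/-- The element `1` or `z`. -/
def zb {G : Type} [Group G] (z : G) (e : Bool) : G := if e then z else 1

/-- A central extension by the group `{1, z}`, with the tails given by `y`. -/
structure Ext (a : Nd) (y : ℕ) {G : Type} [Group G] (z : G) (A : ℕ → G) : Prop where
  zc : ∀ g, z * g = g * z
  z2 : z * z = 1
  z1 : z ≠ 1
  g : ∀ i < a.N, ∀ x < 2 ^ a.N,
    ev A a.N x * A i = ev A a.N (a.R i x) * zz z (bt y) a.m (a.W i x)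
  surj : ∀ g, ∃ x < 2 ^ a.N, ∃ e : Bool, g = ev A a.N x * zb z e
  inj : ∀ x < 2 ^ a.N, ∀ x' < 2 ^ a.N, ∀ s t : Bool,
    ev A a.N x * zb z s = ev A a.N x' * zb z t → x = x' ∧ s = t
  hW : Good a.N a.R a.W

section

variable {a : Nd} {y : ℕ} {G : Type} [Group G] {z : G} {A : ℕ → G}

theorem zz_zb (z : G) (τ : ℕ → Bool) (n t : ℕ) : zz z τ n t = zb z (par τ n t) := rfl

theorem zb_mul (h2 : z * z = 1) (s t : Bool) : zb z s * zb z t = zb z (xor s t) := by
  cases s <;> cases t <;> simp [zb, h2]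

theorem zb_comm (hc : ∀ g, z * g = g * z) (s : Bool) (g : G) : zb z s * g = g * zb z s := by
  cases s <;> simp [zb, hc]

theorem Ext.tail (h : Ext a y z A) : Tail (zz z (bt y) a.m) := tail_zz h.z2 h.zc _ _

theorem Ext.mul (h : Ext a y z A) (v x : ℕ) (hx : x < 2 ^ a.N) :
    fm a.R v a.N x < 2 ^ a.N ∧ ev A a.N x * ev A a.N v =
      ev A a.N (fm a.R v a.N x) * zb z (par (bt y) a.m (ft a.R a.W v a.N x)) :=
  fold_sound h.tail h.hW.bd h.g v x hx a.N le_rfl

/-- A witness shows that the extension is not rational. -/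
theorem Ext.bad (h : Ext a y z A) (hr : Rat2 G) (w : Bool × ℕ × List ℕ) (hw : witb a w = true)
    (hall : (w.2.2.all fun s => par (bt y) a.m s) = true) : False := by
  obtain ⟨k, x, D⟩ := w
  unfold witb at hw
  rw [Bool.and_eq_true, blt_iff, allb_iff] at hw
  obtain ⟨hx, hw⟩ := hw
  have hD : ∀ s ∈ D, par (bt y) a.m s = true := by
    intro s hs
    exact List.all_eq_true.1 hall s hs
  have hany : ∀ s, (D.any (Nat.beq s)) = true → par (bt y) a.m s = true := by
    intro s hs
    obtain ⟨t, ht, e⟩ := List.any_eq_true.1 hs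
    rw [(beq_iff _ _).1 e]
    exact hD t ht
  cases k
  · obtain ⟨g, hg⟩ := (hr (ev A a.N x)).1
    obtain ⟨v, hv, e, rfl⟩ := h.surj g
    have h1 := hw v hv
    simp only [cond_false] at h1
    obtain ⟨m1, m2⟩ := h.mul v x hx
    obtain ⟨m3, m4⟩ := h.mul x (fm a.R v a.N x) m1
    have h2 : ev A a.N (fm a.R x a.N (fm a.R v a.N x)) *
        zb z (xor (xor (par (bt y) a.m (ft a.R a.W x a.N (fm a.R v a.N x)))
          (par (bt y) a.m (ft a.R a.W v a.N x))) e) = ev A a.N v * zb z e := by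
      rw [← hg]
      calc _ = ev A a.N (fm a.R v a.N x) * ev A a.N x *
            (zb z (par (bt y) a.m (ft a.R a.W v a.N x)) * zb z e) := by
            rw [m4, mul_assoc, zb_mul h.z2, zb_mul h.z2]
            congr 2
            cases par (bt y) a.m (ft a.R a.W x a.N (fm a.R v a.N x)) <;>
              cases par (bt y) a.m (ft a.R a.W v a.N x) <;> cases e <;> rfl
        _ = ev A a.N x * ev A a.N v * zb z e * ev A a.N x := by
            rw [m2, mul_assoc _ (zb z e) (ev A a.N x), zb_comm h.zc e, mul_assoc (ev A a.N _),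
              ← mul_assoc (ev A a.N x), mul_assoc (ev A a.N (fm a.R v a.N x)) (zb z _),
              ← mul_assoc (zb z _) (ev A a.N x), zb_comm h.zc, mul_assoc (ev A a.N x) (zb z _)]
        _ = ev A a.N x * (ev A a.N v * zb z e) * ev A a.N x := by rw [← mul_assoc]
    obtain ⟨h3, h4⟩ := h.inj _ m3 v hv _ _ h2
    rw [(beq_iff _ _).2 h3, cond_true] at h1
    have h5 := hany _ h1
    rw [par_xor] at h5
    revert h4 h5
    cases par (bt y) a.m (ft a.R a.W x a.N (fm a.R v a.N x)) <;>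
      cases par (bt y) a.m (ft a.R a.W v a.N x) <;> cases e <;> simp
  · obtain ⟨g, hg⟩ := (hr (ev A a.N x)).2
    obtain ⟨v, hv, e, rfl⟩ := h.surj g
    have h1 := hw v hv
    simp only [cond_true] at h1
    obtain ⟨m1, m2⟩ := h.mul v x hx
    obtain ⟨m3, m4⟩ := h.mul x v hv
    obtain ⟨m5, m6⟩ := h.mul x (fm a.R x a.N v) m3
    obtain ⟨m7, m8⟩ := h.mul x (fm a.R x a.N (fm a.R x a.N v)) m5
    have h2 : ev A a.N (fm a.R v a.N x) *
        zb z (xor (par (bt y) a.m (ft a.R a.W v a.N x)) e) =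
        ev A a.N (fm a.R x a.N (fm a.R x a.N (fm a.R x a.N v))) *
        zb z (xor (xor (par (bt y) a.m (ft a.R a.W x a.N v))
          (xor (par (bt y) a.m (ft a.R a.W x a.N (fm a.R x a.N v)))
          (par (bt y) a.m (ft a.R a.W x a.N (fm a.R x a.N (fm a.R x a.N v)))))) e) := by
      have e1 : ev A a.N x * (ev A a.N v * zb z e) = ev A a.N (fm a.R v a.N x) *
          zb z (xor (par (bt y) a.m (ft a.R a.W v a.N x)) e) := by
        rw [← mul_assoc, m2, mul_assoc, zb_mul h.z2]
      rw [← e1, hg]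
      have e2 : ∀ (u w : G) (s t : Bool), u * ev A a.N x = w * zb z s →
          u * zb z t * ev A a.N x = w * zb z (xor s t) := by
        intro u w s t hu
        rw [mul_assoc, zb_comm h.zc, ← mul_assoc, hu, mul_assoc, zb_mul h.z2]
      rw [e2 _ _ _ _ m4, e2 _ _ _ _ m6, e2 _ _ _ _ m8]
      congr 2
      cases par (bt y) a.m (ft a.R a.W x a.N v) <;>
        cases par (bt y) a.m (ft a.R a.W x a.N (fm a.R x a.N v)) <;>
        cases par (bt y) a.m (ft a.R a.W x a.N (fm a.R x a.N (fm a.R x a.N v))) <;>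
        cases e <;> rfl
    obtain ⟨h3, h4⟩ := h.inj _ m1 _ m7 _ _ h2
    rw [(beq_iff _ _).2 h3, cond_true] at h1
    have h5 := hany _ h1
    rw [par_xor, par_xor, par_xor] at h5
    revert h4 h5
    cases par (bt y) a.m (ft a.R a.W v a.N x) <;>
      cases par (bt y) a.m (ft a.R a.W x a.N v) <;>
        cases par (bt y) a.m (ft a.R a.W x a.N (fm a.R x a.N v)) <;>
        cases par (bt y) a.m (ft a.R a.W x a.N (fm a.R x a.N (fm a.R x a.N v))) <;>
        cases e <;> simp

/-- The value of a code. -/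
def val (a : Nd) (z : G) (A : ℕ → G) (c : ℕ) : G :=
  ev A a.N (c % 2 ^ a.N) * (if c / 2 ^ a.N % 2 = 1 then z else 1)

theorem val_cmul (h : Ext a y z A) (c d : ℕ) :
    val a z A (cmul a y c d) = val a z A c * val a z A d := by
  have hp : 0 < 2 ^ a.N := by positivity
  have hc : c % 2 ^ a.N < 2 ^ a.N := Nat.mod_lt _ hp
  obtain ⟨m1, m2⟩ := h.mul (d % 2 ^ a.N) (c % 2 ^ a.N) hc
  unfold val cmul
  rw [Nat.add_mul_mod_self_left, Nat.mod_eq_of_lt m1, Nat.add_mul_div_left _ _ hp,
    Nat.div_eq_of_lt m1, Nat.zero_add, Nat.mod_mod]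
  have e1 : ∀ (n : ℕ), (if n % 2 = 1 then z else 1) = zb z (decide (n % 2 = 1)) := by
    intro n; unfold zb; simp
  rw [e1, e1, e1]
  rw [mul_assoc, ← mul_assoc (zb z _) (ev A a.N _), zb_comm h.zc, mul_assoc (ev A a.N _) (zb z _),
    ← mul_assoc, m2, zb_mul h.z2, mul_assoc, zb_mul h.z2]
  congr 2
  have f1 : ∀ n : ℕ, n % 2 = 0 ∨ n % 2 = 1 := fun n => Nat.mod_two_eq_zero_or_one n
  cases par (bt y) a.m (ft a.R a.W (d % 2 ^ a.N) a.N (c % 2 ^ a.N)) <;>
    rcases f1 (c / 2 ^ a.N) with h1 | h1 <;> rcases f1 (d / 2 ^ a.N) with h2 | h2 <;>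
    simp [Nat.add_mod, h1, h2]

theorem val_zero : val a z A 0 = 1 := by simp [val, ev_zero]

theorem val_cword (h : Ext a y z A) (im : List ℕ) (v : ℕ) :
    ∀ n, val a z A (cword a y im v n) = ev (fun k => val a z A (im.getD k 0)) n v
  | 0 => by simp [cword, ev, val_zero]
  | n + 1 => by
    simp only [cword, ev, bt_eq]
    cases v.testBit n
    · simpa using val_cword h im v n
    · simp only [cond_true, if_true]
      rw [val_cmul h, val_cword h im v n]

/-- A good extension has the table of another group. -/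
theorem Ext.good [Finite G] (h : Ext a y z A) {b : Nd} (hb : Good b.N b.R b.S) (im iv : List ℕ)
    (hN : b.N = a.N + 1)
    (h1 : ∀ j < a.N + 1, ∀ i < j + 1, cmul a y (im.getD j 0) (im.getD i 0) =
      cword a y im (b.R i (2 ^ j)) (a.N + 1))
    (h2 : ∀ l < a.N + 1, cword a y im (iv.getD l 0) (a.N + 1) = 2 ^ l) : HasTab G b.N b.R := by
  set B : ℕ → G := fun k => val a z A (im.getD k 0) with hB
  have hp : 0 < 2 ^ a.N := by positivity
  have hrel : ∀ i j, i ≤ j → j < b.N → B j * B i = ev B b.N (b.R i (2 ^ j)) := by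
    intro i j hij hj
    rw [hN] at hj ⊢
    rw [hB, ← val_cword h im, ← h1 j hj i (by omega), val_cmul h]
  have hZ : Tail (fun _ : ℕ => (1 : G)) := ⟨rfl, fun _ _ => by simp, fun _ _ => by simp⟩
  have hg := table_sound (A := B) hZ hb fun i j hij hj => by rw [hrel i j hij hj, mul_one]
  have hmul : ∀ i < b.N, ∀ g, (∃ x < 2 ^ b.N, ev B b.N x = g) →
      ∃ x < 2 ^ b.N, ev B b.N x = g * B i := by
    rintro i hi g ⟨x, hx, rfl⟩
    exact ⟨b.R i x, hb.bd i hi x hx, by rw [hg i hi x hx, mul_one]⟩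
  have hmulw : ∀ (v n : ℕ), n ≤ b.N → ∀ g, (∃ x < 2 ^ b.N, ev B b.N x = g) →
      ∃ x < 2 ^ b.N, ev B b.N x = g * ev B n v := by
    intro v n
    induction n with
    | zero => intro _ g hg; simpa [ev] using hg
    | succ n ih =>
      intro hn g hg'
      have h3 := ih (Nat.le_of_succ_le hn) g hg'
      simp only [ev]
      split_ifs
      · rw [← mul_assoc]
        exact hmul n hn _ h3
      · simpa using h3
  have hgen : ∀ l < a.N + 1, ∀ g, (∃ x < 2 ^ b.N, ev B b.N x = g) →
      ∃ x < 2 ^ b.N, ev B b.N x = g * val a z A (2 ^ l) := by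
    intro l hl g hg'
    rw [← h2 l hl, val_cword h im]
    exact hmulw _ _ (by rw [hN]) g hg'
  have hA : ∀ l < a.N, val a z A (2 ^ l) = A l := by
    intro l hl
    have h3 : 2 ^ l < 2 ^ a.N := Nat.pow_lt_pow_right (by norm_num) hl
    unfold val
    rw [Nat.mod_eq_of_lt h3, Nat.div_eq_of_lt h3, ev_pow A a.N l hl]
    simp
  have hz : val a z A (2 ^ a.N) = z := by
    unfold val
    rw [Nat.mod_self, Nat.div_self hp, ev_zero]
    simp
  have hall : ∀ g : G, ∃ x < 2 ^ b.N, ev B b.N x = g := by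
    intro g
    obtain ⟨x, hx, e, rfl⟩ := h.surj g
    have h4 : ∀ n ≤ a.N, ∃ u < 2 ^ b.N, ev B b.N u = ev A n x := by
      intro n
      induction n with
      | zero => intro _; exact ⟨0, by positivity, ev_zero B b.N⟩
      | succ n ih =>
        intro hn
        have h5 := ih (Nat.le_of_succ_le hn)
        simp only [ev]
        split_ifs
        · rw [← hA n hn]
          exact hgen n (by omega) _ h5
        · simpa using h5
    cases e
    · simpa [zb] using h4 a.N le_rfl
    · have h6 := hgen a.N (by omega) _ (h4 a.N le_rfl)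
      rw [hz] at h6
      simpa [zb] using h6
  have hcard : Nat.card G = 2 ^ b.N := by
    have h7 : Function.Bijective fun p : Fin (2 ^ a.N) × Bool => ev A a.N p.1 * zb z p.2 := by
      constructor
      · rintro ⟨x, s⟩ ⟨x', t⟩ hp
        obtain ⟨e1, e2⟩ := h.inj x x.2 x' x'.2 s t hp
        rw [Prod.mk.injEq]
        exact ⟨Fin.ext e1, e2⟩
      · intro g
        obtain ⟨x, hx, e, rfl⟩ := h.surj g
        exact ⟨(⟨x, hx⟩, e), rfl⟩
    rw [← Nat.card_eq_of_bijective _ h7, Nat.card_prod, hN]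
    simp [pow_succ]
  refine ⟨B, hrel, hall, ?_⟩
  have h8 : Function.Surjective fun x : Fin (2 ^ b.N) => ev B b.N x := by
    intro g
    obtain ⟨x, hx, e⟩ := hall g
    exact ⟨⟨x, hx⟩, e⟩
  have h9 : Function.Injective fun x : Fin (2 ^ b.N) => ev B b.N x := by
    have := Fintype.ofFinite G
    refine ((Fintype.bijective_iff_surjective_and_card _).2 ⟨h8, ?_⟩).1
    rw [Fintype.card_fin, ← Nat.card_eq_fintype_card, hcard]
  intro x hx x' hx' e
  have := @h9 ⟨x, hx⟩ ⟨x', hx'⟩ e
  exact congrArg Fin.val this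

end

end Pool.Agent.H1.RT
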