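import Pool.Agent.H1.RT.Basic

set_option autoImplicit false

/-!
Central extensions, by a group of order two, of a group which is given by a table.
-/

namespace Pool.Agent.H1.RT

/-- The group has the table `R` of right multiplications by generators. -/
def HasTab (G : Type) [Group G] (N : ℕ) (R : ℕ → ℕ → ℕ) : Prop :=
  ∃ A : ℕ → G, (∀ i j, i ≤ j → j < N → A j * A i = ev A N (R i (2 ^ j))) ∧
    (∀ g, ∃ x < 2 ^ N, ev A N x = g) ∧
    ∀ x < 2 ^ N, ∀ y < 2 ^ N, ev A N x = ev A N y → x = y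

/-- All elements are conjugate to their inverses and to their cubes. -/
def Rat2 (G : Type) [Group G] : Prop :=
  ∀ g : G, (∃ h, g * h * g = h) ∧ ∃ h, g * h = h * g * g * g

theorem lifts {G Q : Type} [Group G] [Group Q] (π : G →* Q) (hπ : Function.Surjective π) (N : ℕ)
    (R : ℕ → ℕ → ℕ) (dl : ℕ → ℕ × ℕ) (B : ℕ → Q)
    (hrel : ∀ i j, i ≤ j → j < N → B j * B i = ev B N (R i (2 ^ j)))
    (hdl : ∀ k < N, (dl k).1 ≤ (dl k).2 → (dl k).2 < k ∧ 2 ^ k ≤ R (dl k).1 (2 ^ (dl k).2) ∧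
      R (dl k).1 (2 ^ (dl k).2) < 2 ^ (k + 1)) :
    ∃ A : ℕ → G, (∀ l < N, π (A l) = B l) ∧ ∀ k < N, (dl k).1 ≤ (dl k).2 →
      A (dl k).2 * A (dl k).1 = ev A N (R (dl k).1 (2 ^ (dl k).2)) := by
  have key : ∀ k ≤ N, ∃ A : ℕ → G, (∀ l < N, π (A l) = B l) ∧ ∀ k' < k, (dl k').1 ≤ (dl k').2 →
      A (dl k').2 * A (dl k').1 = ev A N (R (dl k').1 (2 ^ (dl k').2)) := by
    intro k
    induction k with
    | zero =>
      intro _
      choose A hA using fun l => hπ (B l)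
      exact ⟨A, fun l _ => hA l, fun k' hk' => absurd hk' (Nat.not_lt_zero _)⟩
    | succ k ih =>
      intro hk
      obtain ⟨A, h1, h2⟩ := ih (Nat.le_of_succ_le hk)
      by_cases hd : (dl k).1 ≤ (dl k).2
      · obtain ⟨c1, c2, c3⟩ := hdl k hk hd
        set i := (dl k).1 with hi
        set j := (dl k).2 with hj
        set v := R i (2 ^ j) with hv
        obtain ⟨w, hw⟩ : ∃ w, v = w + 2 ^ k := ⟨v - 2 ^ k, by omega⟩
        have hwlt : w < 2 ^ k := by rw [pow_succ] at c3; omega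
        set a := (ev A N w)⁻¹ * (A j * A i) with ha
        have hev : ∀ u < 2 ^ k, ev (Function.update A k a) N u = ev A N u := by
          intro u hu
          rw [ev_of_lt _ k u hu N (Nat.le_of_succ_le hk), ev_of_lt A k u hu N (Nat.le_of_succ_le hk)]
          exact ev_congr k u fun l hl => Function.update_of_ne hl.ne _ _
        have hpev : ∀ u < 2 ^ N, π (ev A N u) = ev B N u := by
          intro u _
          rw [map_ev]
          exact ev_congr N u fun l hl => h1 l hl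
        refine ⟨Function.update A k a, fun l hl => ?_, fun k' hk' hd' => ?_⟩
        · by_cases hlk : l = k
          · subst hlk
            rw [Function.update_self, ha, map_mul, map_inv, map_mul, h1 j (by omega),
              h1 i (by omega), hrel i j hd (by omega), ← hv, hw,
              ev_add B N l w hwlt hk, hpev w (lt_of_lt_of_le hwlt
                (Nat.pow_le_pow_right (by norm_num) (Nat.le_of_succ_le hk)))]
            group
          · rw [Function.update_of_ne hlk]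
            exact h1 l hl
        · rcases Nat.lt_succ_iff_lt_or_eq.1 hk' with hlt | heq
          · obtain ⟨d1, d2, d3⟩ := hdl k' (by omega) hd'
            rw [Function.update_of_ne (by omega), Function.update_of_ne (by omega), h2 k' hlt hd',
              hev]
            exact lt_of_lt_of_le d3 (Nat.pow_le_pow_right (by norm_num) hlt)
          · subst heq
            rw [← hi, ← hj, ← hv, Function.update_of_ne (by omega), Function.update_of_ne (by omega),
              hw, ev_add _ N k' w hwlt hk, Function.update_self, hev w hwlt, ha]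
            group
      · refine ⟨A, h1, fun k' hk' hd' => ?_⟩
        rcases Nat.lt_succ_iff_lt_or_eq.1 hk' with hlt | heq
        · exact h2 k' hlt hd'
        · subst heq
          exact absurd hd' hd
  obtain ⟨A, h1, h2⟩ := key N le_rfl
  exact ⟨A, h1, fun k hk => h2 k hk⟩

/-! ### The data -/

/-- What to do with an extension. -/
inductive Cs
  | bad (w : ℕ)
  | good (c : ℕ) (im iv : List ℕ)
  | split

/-- The data of a group. -/
structure Nd where
  N : ℕ
  m : ℕ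
  T : ℕ
  U : ℕ
  V : ℕ
  fr : List ℕ
  dl : List (ℕ × ℕ)
  pv : List (List (ℕ × ℕ × ℕ))
  wt : List (Bool × ℕ × List ℕ)
  gs : List ℕ
  cs : List Cs

namespace Nd

/-- The table. -/
def R (a : Nd) (i x : ℕ) : ℕ :=
  (a.T >>> (16 * (2 ^ (a.N - i) + (x >>> i)))) % 65536 + x % 2 ^ i

/-- The raw tails. -/
def S (a : Nd) (i x : ℕ) : ℕ :=
  (a.U >>> (64 * (2 ^ (a.N - i) + (x >>> i)))) % 18446744073709551616

/-- The reduced tails. -/
def W (a : Nd) (i x : ℕ) : ℕ :=
  (a.V >>> (8 * (2 ^ (a.N - i) + (x >>> i)))) % 256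

end Nd

/-- Bounded quantifier. -/
def allb (p : ℕ → Bool) : ℕ → Bool
  | 0 => true
  | n + 1 => p n && allb p n

theorem allb_iff (p : ℕ → Bool) : ∀ n, allb p n = true ↔ ∀ i < n, p i = true
  | 0 => by simp [allb]
  | n + 1 => by
    simp only [allb, Bool.and_eq_true, allb_iff p n]
    constructor
    · rintro ⟨h1, h2⟩ i hi
      rcases Nat.lt_succ_iff_lt_or_eq.1 hi with h | h
      · exact h2 i h
      · rw [h]; exact h1
    · intro h
      exact ⟨h n (Nat.lt_succ_self n), fun i hi => h i (Nat.lt_succ_of_lt hi)⟩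

theorem beq_iff (a b : ℕ) : Nat.beq a b = true ↔ a = b :=
  ⟨Nat.eq_of_beq_eq_true, fun h => by rw [h]; exact Nat.beq_refl b⟩

theorem blt_iff (a b : ℕ) : Nat.blt a b = true ↔ a < b := by
  unfold Nat.blt
  rw [Nat.ble_eq]
  exact Iff.rfl

/-- Check of the table. -/
def goodb (N : ℕ) (R S : ℕ → ℕ → ℕ) : Bool :=
  allb (fun i => allb (fun x => Nat.blt (R i x) (2 ^ N) &&
    (bif Nat.blt x (2 ^ i) then Nat.beq (R i x) (x + 2 ^ i) && Nat.beq (S i x) 0
    else Nat.beq (R i (2 ^ Nat.log2 x) % 2 ^ i) 0 &&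
      (Nat.beq (fm R (R i (2 ^ Nat.log2 x)) N (x - 2 ^ Nat.log2 x)) (R i x) &&
      Nat.beq (S i (2 ^ Nat.log2 x) ^^^ ft R S (R i (2 ^ Nat.log2 x)) N (x - 2 ^ Nat.log2 x))
        (S i x)))) (2 ^ N)) N

theorem good_of_goodb {N : ℕ} {R S : ℕ → ℕ → ℕ} (h : goodb N R S = true) : Good N R S := by
  unfold goodb at h
  rw [allb_iff] at h
  have h' : ∀ i < N, ∀ x < 2 ^ N, Nat.blt (R i x) (2 ^ N) = true ∧
    (bif Nat.blt x (2 ^ i) then Nat.beq (R i x) (x + 2 ^ i) && Nat.beq (S i x) 0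
    else Nat.beq (R i (2 ^ Nat.log2 x) % 2 ^ i) 0 &&
      (Nat.beq (fm R (R i (2 ^ Nat.log2 x)) N (x - 2 ^ Nat.log2 x)) (R i x) &&
      Nat.beq (S i (2 ^ Nat.log2 x) ^^^ ft R S (R i (2 ^ Nat.log2 x)) N (x - 2 ^ Nat.log2 x))
        (S i x))) = true := by
    intro i hi x hx
    have h1 := (allb_iff _ _).1 (h i hi) x hx
    simpa only [Bool.and_eq_true] using h1
  refine ⟨fun i hi x hx => (blt_iff _ _).1 (h' i hi x hx).1, fun i hi x hx => ?_,
    fun i hi x hge hx => ?_⟩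
  · have hxN : x < 2 ^ N := lt_of_lt_of_le hx (Nat.pow_le_pow_right (by norm_num) hi.le)
    have h1 := (h' i hi x hxN).2
    rw [(blt_iff _ _).2 hx, cond_true, Bool.and_eq_true, beq_iff, beq_iff] at h1
    exact h1
  · have h1 := (h' i hi x hx).2
    have h2 : Nat.blt x (2 ^ i) = false := by
      rw [← Bool.not_eq_true, blt_iff]
      omega
    rw [h2, cond_false, Bool.and_eq_true, Bool.and_eq_true, beq_iff, beq_iff, beq_iff] at h1
    exact ⟨h1.1, h1.2.1, h1.2.2⟩

/-- A consistency condition. -/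
def cons (R S : ℕ → ℕ → ℕ) (N : ℕ) (t : ℕ × ℕ × ℕ) : ℕ :=
  (S t.2.1 (2 ^ t.2.2) ^^^ S t.1 (R t.2.1 (2 ^ t.2.2))) ^^^
    (S t.1 (2 ^ t.2.1) ^^^ ft R S (R t.1 (2 ^ t.2.1)) N (2 ^ t.2.2))

/-- The sum of consistency conditions. -/
def xors (R S : ℕ → ℕ → ℕ) (N : ℕ) : List (ℕ × ℕ × ℕ) → ℕ
  | [] => 0
  | t :: l => cons R S N t ^^^ xors R S N l

/-- The indices are small. -/
def small (N : ℕ) : List (ℕ × ℕ × ℕ) → Bool
  | [] => true
  | t :: l => (Nat.blt t.1 N && (Nat.blt t.2.1 N && Nat.blt t.2.2 N)) && small N l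

/-- Check of the relations. -/
def relb (a : Nd) : Bool :=
  Nat.ble a.N 8 && (allb (fun l => Nat.blt (a.fr.getD l 0) 64) a.m &&
  (allb (fun k => bif Nat.ble (a.dl.getD k (1, 0)).1 (a.dl.getD k (1, 0)).2 then
      Nat.blt (a.dl.getD k (1, 0)).2 k &&
      (Nat.ble (2 ^ k) (a.R (a.dl.getD k (1, 0)).1 (2 ^ (a.dl.getD k (1, 0)).2)) &&
      Nat.blt (a.R (a.dl.getD k (1, 0)).1 (2 ^ (a.dl.getD k (1, 0)).2)) (2 ^ (k + 1)))
      else true) a.N &&
  allb (fun j => allb (fun i =>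
    (Nat.beq (a.S i (2 ^ j)) (2 ^ (8 * j + i)) ||
      (Nat.beq (a.S i (2 ^ j)) 0 && !(allb (fun k => !(Nat.beq (a.dl.getD k (1, 0)).1 i &&
        Nat.beq (a.dl.getD k (1, 0)).2 j)) a.N))) &&
    (small a.N (a.pv.getD (j * (j + 1) / 2 + i) []) &&
      Nat.beq (xors a.R a.S a.N (a.pv.getD (j * (j + 1) / 2 + i) []))
        (a.S i (2 ^ j) ^^^ sp (fun l => a.fr.getD l 0) a.m (a.W i (2 ^ j))))) (j + 1)) a.N))

/-- Check of a witness. -/
def witb (a : Nd) (w : Bool × ℕ × List ℕ) : Bool :=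
  Nat.blt w.2.1 (2 ^ a.N) &&
  allb (fun v => bif w.1 then
      bif Nat.beq (fm a.R v a.N w.2.1)
          (fm a.R w.2.1 a.N (fm a.R w.2.1 a.N (fm a.R w.2.1 a.N v))) then
        w.2.2.any (Nat.beq (ft a.R a.W v a.N w.2.1 ^^^ (ft a.R a.W w.2.1 a.N v ^^^
          (ft a.R a.W w.2.1 a.N (fm a.R w.2.1 a.N v) ^^^
          ft a.R a.W w.2.1 a.N (fm a.R w.2.1 a.N (fm a.R w.2.1 a.N v)))))) else true
    else
      bif Nat.beq (fm a.R w.2.1 a.N (fm a.R v a.N w.2.1)) v then
        w.2.2.any (Nat.beq (ft a.R a.W v a.N w.2.1 ^^^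
          ft a.R a.W w.2.1 a.N (fm a.R v a.N w.2.1))) else true) (2 ^ a.N)

/-- Multiplication of codes in the extension with the number `y`. -/
def cmul (a : Nd) (y c d : ℕ) : ℕ :=
  fm a.R (d % 2 ^ a.N) a.N (c % 2 ^ a.N) + 2 ^ a.N * ((c / 2 ^ a.N + d / 2 ^ a.N +
    (bif par (bt y) a.m (ft a.R a.W (d % 2 ^ a.N) a.N (c % 2 ^ a.N)) then 1 else 0)) % 2)

/-- Words in codes. -/
def cword (a : Nd) (y : ℕ) (im : List ℕ) (v : ℕ) : ℕ → ℕ
  | 0 => 0
  | n + 1 => bif bt v n then cmul a y (cword a y im v n) (im.getD n 0) else cword a y im v n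

/-- Check of a case. -/
def caseb (nd : ℕ → Nd) (a : Nd) (y : ℕ) : Cs → Bool
  | Cs.bad w => Nat.blt w a.wt.length &&
      (a.wt.getD w (false, 0, [])).2.2.all (fun s => par (bt y) a.m s)
  | Cs.good c im iv => Nat.blt c 30 && (Nat.beq (nd c).N (a.N + 1) &&
      (allb (fun j => allb (fun i => Nat.beq (cmul a y (im.getD j 0) (im.getD i 0))
        (cword a y im ((nd c).R i (2 ^ j)) (a.N + 1))) (j + 1)) (a.N + 1) &&
      (allb (fun l => Nat.beq (cword a y im (iv.getD l 0) (a.N + 1)) (2 ^ l)) (a.N + 1))))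
  | Cs.split => Nat.beq y 0 && (Nat.beq a.gs.length 3 &&
      (allb (fun k => Nat.blt (a.gs.getD k 0) a.N &&
        allb (fun l => Nat.beq k l || !(Nat.beq (a.gs.getD k 0) (a.gs.getD l 0))) 3) 3 &&
      allb (fun k => allb (fun i => allb (fun x => (bt (a.R i x) (a.gs.getD k 0)) ==
        (xor (bt x (a.gs.getD k 0)) (Nat.beq i (a.gs.getD k 0)))) (2 ^ a.N)) a.N) 3))

/-- Check of the data of a group. -/
def okb (nd : ℕ → Nd) (a : Nd) : Bool :=
  goodb a.N a.R a.S && (goodb a.N a.R a.W && (relb a && (a.wt.all (witb a) &&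
    allb (fun y => caseb nd a y (a.cs.getD y (Cs.bad 1000))) (2 ^ a.m))))

end Pool.Agent.H1.RT
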